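import Pool.Agent.H389R2.CL.AnnX

set_option autoImplicit false
set_option maxHeartbeats 1000000
set_option linter.unusedSimpArgs false

namespace Pool.Agent.H389R2.CL

open H974 H934E Pool.Agent.H160R2.CV MeasureTheory TopologicalSpace Filter Topology Metric Set
open Pool.Agent.H389R2.Dim Pool.Agent.H389R2.CD Pool.Agent.H389R2.LV
open scoped ENNReal NNReal

/-- Every crossing of the standard rectangle is joined to a good set. -/
def GoodR (t α E η : ℝ) (N : ℤ) (F : Finset Edg) : Prop :=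
  ∀ y y' : ℤ, (0 ≤ y ∧ y ≤ 256 * N) → (0 ≤ y' ∧ y' ≤ 256 * N) →
    Reach (↑F ∩ ↑(LRE (-(32 * N)) (32 * N) 0 (256 * N))) (-(32 * N), y) (32 * N, y') →
    ∃ (r : ℕ) (T : Finset Vtx), 1 ≤ r ∧ η * N ≤ r ∧ SG t α E r T ∧
      (∀ x ∈ T, |x.1| ≤ 32 * N ∧ -(16 * N) ≤ x.2 ∧ x.2 ≤ 272 * N) ∧
      ∀ x ∈ T, Reach (↑F : Set Edg) (-(32 * N), y) x

/-- Transport of a good set by a chart. -/
theorem good_chart {t α E η : ℝ} {N : ℤ} {c u p q : Vtx} {F : Finset Edg} {g : LSym}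
    (hI : Iso g) {L : Set Edg}
    (hL : ∀ e ∈ L, g.φ e ∈ LRE (-(32 * N)) (32 * N) 0 (256 * N)) {y y' : ℤ}
    (hp : g.ψ p = (-(32 * N), y)) (hq : g.ψ q = (32 * N, y'))
    (hy : 0 ≤ y ∧ y ≤ 256 * N) (hy' : 0 ≤ y' ∧ y' ≤ 256 * N)
    (hcr : Reach (↑F ∩ L) p q) (hup : Reach (↑F : Set Edg) u p)
    (hbox : ∀ x : Vtx, |(g.ψ x).1| ≤ 32 * N → -(16 * N) ≤ (g.ψ x).2 → (g.ψ x).2 ≤ 272 * N →
      |x.1 - c.1| ≤ 144 * N ∧ |x.2 - c.2| ≤ 144 * N)
    (hg : GoodR t α E η N (g.mp F)) :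
    ∃ (r : ℕ) (T : Finset Vtx), 1 ≤ r ∧ η * N ≤ r ∧ SG t α E r T ∧
      (∀ x ∈ T, |x.1 - c.1| ≤ 144 * N ∧ |x.2 - c.2| ≤ 144 * N) ∧
      ∀ x ∈ T, Reach (↑F : Set Edg) u x := by
  have h1 := g.reach hcr
  rw [hp, hq] at h1
  obtain ⟨r, T, hr, hr2, hT1, hT2, hT3⟩ := hg y y' hy hy' (h1.mono (by
    rintro _ ⟨e, ⟨he1, he2⟩, rfl⟩
    refine ⟨?_, Finset.mem_coe.mpr (hL e he2)⟩
    rw [LSym.coe_mp]
    exact Set.mem_image_of_mem _ he1))
  refine ⟨r, T.map g.inv.ψ.toEmbedding, hr, hr2, SG_map hT1 (Iso_inv hI), ?_, ?_⟩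
  · intro x hx
    rw [Finset.mem_map] at hx
    obtain ⟨z, hz, rfl⟩ := hx
    have hgz : g.ψ (g.inv.ψ z) = z := g.ψ.apply_symm_apply z
    have h2 := hT2 z hz
    rw [← hgz] at h2
    exact hbox _ h2.1 h2.2.1 h2.2.2
  · intro x hx
    rw [Finset.mem_map] at hx
    obtain ⟨z, hz, rfl⟩ := hx
    have h3 := g.inv.reach (hT3 z hz)
    have hgp : g.inv.ψ (-(32 * N), y) = p := by
      rw [← hp]; exact g.ψ.symm_apply_apply p
    rw [hgp] at h3
    refine hup.trans (h3.mono ?_)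
    rintro _ ⟨e, he, rfl⟩
    rw [Finset.mem_coe, LSym.mem_mp] at he
    exact Finset.mem_coe.mpr he

/-- The probability of the bad event in a chart. -/
theorem bad_chart {t α E η ε : ℝ} {N : ℤ} {S : Finset Edg} {g : LSym}
    (h : ∀ S : Finset Edg, LV.Big N ⊆ S → Pr P S (fun F => ¬ GoodR t α E η N F) ≤ ε)
    (hS : LV.Big N ⊆ g.mp S) : Pr P S (fun F => ¬ GoodR t α E η N (g.mp F)) ≤ ε := by
  have h1 := h _ hS
  have h2 := LSym.pr g (1 / 2) S (fun F => ¬ GoodR t α E η N F)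
  have h3 : Pr P S (fun F => ¬ GoodR t α E η N (g.mp F)) =
      Pr P (g.mp S) (fun F => ¬ GoodR t α E η N F) := h2.symm
  rw [h3]
  exact h1

/-- Translation of `(a, b)` to the origin. -/
def cT (a b : ℤ) : LSym := trl (-a) (-b)

/-- Translation of `(a, b)` to the origin, followed by the transposition. -/
def cV (a b : ℤ) : LSym := lcomp tps (trl (-a) (-b))

theorem Iso_cT (a b : ℤ) : Iso (cT a b) := Iso_trl _ _

theorem Iso_cV (a b : ℤ) : Iso (cV a b) := Iso_lcomp Iso_tps (Iso_trl _ _)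

theorem cT_ψ (a b : ℤ) (v : Vtx) : (cT a b).ψ v = (v.1 - a, v.2 - b) := by
  obtain ⟨x, y⟩ := v
  unfold cT
  rw [trl_ψ]
  simp only [Prod.mk.injEq]
  constructor <;> ring

theorem cV_ψ (a b : ℤ) (v : Vtx) : (cV a b).ψ v = (v.2 - b, v.1 - a) := by
  obtain ⟨x, y⟩ := v
  have h : (cV a b).ψ (x, y) = tps.ψ ((trl (-a) (-b)).ψ (x, y)) := rfl
  rw [h, trl_ψ, tps_ψ]
  simp only [Prod.mk.injEq]
  constructor <;> ring

theorem cT_φ (a b x y : ℤ) (d : Bool) : (cT a b).φ (x, y, d) = (x - a, y - b, d) := by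
  unfold cT
  rw [trl_φ]
  simp only [Prod.mk.injEq, and_true]
  constructor <;> ring

theorem cV_φ (a b x y : ℤ) (d : Bool) : (cV a b).φ (x, y, d) = (y - b, x - a, !d) := by
  have h : (cV a b).φ (x, y, d) = tps.φ ((trl (-a) (-b)).φ (x, y, d)) := rfl
  rw [h, trl_φ, tps_φ]
  simp only [Prod.mk.injEq, and_true]
  constructor <;> ring

theorem cT_φs (a b x y : ℤ) (d : Bool) : (cT a b).φ.symm (x, y, d) = (x + a, y + b, d) := by
  rw [Equiv.symm_apply_eq, cT_φ]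
  simp

theorem cV_φs (a b x y : ℤ) (d : Bool) : (cV a b).φ.symm (x, y, d) = (y + a, x + b, !d) := by
  rw [Equiv.symm_apply_eq, cV_φ]
  simp

theorem big_cT {N a b : ℤ} {S : Finset Edg}
    (hS : RE (a - 48 * N) (a + 48 * N) (b - 16 * N) (b + 272 * N) ⊆ S) :
    LV.Big N ⊆ (cT a b).mp S := by
  rintro ⟨x, y, d⟩ he
  rw [LSym.mem_mp, cT_φs]
  apply hS
  unfold LV.Big at he
  cases d
  · rw [mem_RE_false] at he ⊢
    omega
  · rw [mem_RE_true] at he ⊢
    omega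

theorem big_cV {N a b : ℤ} {S : Finset Edg}
    (hS : RE (a - 16 * N) (a + 272 * N) (b - 48 * N) (b + 48 * N) ⊆ S) :
    LV.Big N ⊆ (cV a b).mp S := by
  rintro ⟨x, y, d⟩ he
  rw [LSym.mem_mp, cV_φs]
  apply hS
  unfold LV.Big at he
  cases d
  · rw [mem_RE_false] at he
    simp only [Bool.not_false, mem_RE_true]
    omega
  · rw [mem_RE_true] at he
    simp only [Bool.not_true, mem_RE_false]
    omega

theorem lre_cT {N a b : ℤ} {e : Edg}
    (he : e ∈ LRE (a - 32 * N) (a + 32 * N) b (b + 256 * N)) :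
    (cT a b).φ e ∈ LRE (-(32 * N)) (32 * N) 0 (256 * N) := by
  obtain ⟨x, y, d⟩ := e
  rw [cT_φ]
  cases d
  · rw [mem_LRE_false] at he ⊢
    omega
  · rw [mem_LRE_true] at he ⊢
    omega

theorem lre_cV {N a b : ℤ} {e : Edg}
    (he : e ∈ TBE a (a + 256 * N) (b - 32 * N) (b + 32 * N)) :
    (cV a b).φ e ∈ LRE (-(32 * N)) (32 * N) 0 (256 * N) := by
  obtain ⟨x, y, d⟩ := e
  rw [cV_φ]
  cases d
  · rw [mem_TBE_false] at he
    simp only [Bool.not_false, mem_LRE_true]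
    omega
  · rw [mem_TBE_true] at he
    simp only [Bool.not_true, mem_LRE_false]
    omega

/-- With high probability every path across the annulus `64 N`, `128 N` around `c` is joined to a
good set of vertices. -/
theorem annulus_good (hAr : ArS) {t : ℝ} (ht1 : 1 ≤ t) (ht : t < 91 / 48) :
    ∃ α E : ℝ, 0 < α ∧ 0 < E ∧ ∀ ε : ℝ, 0 < ε → ∃ η : ℝ, 0 < η ∧ ∃ N0 : ℤ, 1 ≤ N0 ∧
      ∀ N : ℤ, N0 ≤ N → ∀ c : Vtx, ∀ S : Finset Edg,
      RE (c.1 - 144 * N) (c.1 + 144 * N) (c.2 - 144 * N) (c.2 + 144 * N) ⊆ S →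
      Pr P S (fun F => ¬ ∀ u v : Vtx, (|u.1 - c.1| ≤ 64 * N ∧ |u.2 - c.2| ≤ 64 * N) →
        (128 * N ≤ |v.1 - c.1| ∨ 128 * N ≤ |v.2 - c.2|) →
        Reach (↑F ∩ ↑(RE (c.1 - 144 * N) (c.1 + 144 * N) (c.2 - 144 * N) (c.2 + 144 * N))) u v →
        ∃ (r : ℕ) (T : Finset Vtx), 1 ≤ r ∧ η * N ≤ r ∧ SG t α E r T ∧
          (∀ x ∈ T, |x.1 - c.1| ≤ 144 * N ∧ |x.2 - c.2| ≤ 144 * N) ∧
          ∀ x ∈ T, Reach (↑F : Set Edg) u x) ≤ ε := by
  obtain ⟨α, E, hα, hE, hmain⟩ := cross_good hAr ht1 ht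
  refine ⟨α, E, hα, hE, ?_⟩
  intro ε hε
  obtain ⟨η, hη, N0, hN0, hcg⟩ := hmain (ε / 4) (by positivity)
  refine ⟨η, hη, N0, hN0, ?_⟩
  intro N hN c S hS
  have hN1 : 1 ≤ N := hN0.trans hN
  have hcg' : ∀ S : Finset Edg, LV.Big N ⊆ S → Pr P S (fun F => ¬ GoodR t α E η N F) ≤ ε / 4 :=
    fun S hS => hcg N hN S hS
  have b1 : Pr P S (fun F => ¬ GoodR t α E η N
      ((cT (c.1 + 96 * N) (c.2 - 128 * N)).mp F)) ≤ ε / 4 := by
    apply bad_chart hcg'
    apply big_cT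
    exact (RE_subset (by omega) (by omega) (by omega) (by omega)).trans hS
  have b2 : Pr P S (fun F => ¬ GoodR t α E η N
      ((cT (c.1 - 96 * N) (c.2 - 128 * N)).mp F)) ≤ ε / 4 := by
    apply bad_chart hcg'
    apply big_cT
    exact (RE_subset (by omega) (by omega) (by omega) (by omega)).trans hS
  have b3 : Pr P S (fun F => ¬ GoodR t α E η N
      ((cV (c.1 - 128 * N) (c.2 + 96 * N)).mp F)) ≤ ε / 4 := by
    apply bad_chart hcg'
    apply big_cV
    exact (RE_subset (by omega) (by omega) (by omega) (by omega)).trans hS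
  have b4 : Pr P S (fun F => ¬ GoodR t α E η N
      ((cV (c.1 - 128 * N) (c.2 - 96 * N)).mp F)) ≤ ε / 4 := by
    apply bad_chart hcg'
    apply big_cV
    exact (RE_subset (by omega) (by omega) (by omega) (by omega)).trans hS
  refine le_trans (Pr_mono (B := fun F =>
    (¬ GoodR t α E η N ((cT (c.1 + 96 * N) (c.2 - 128 * N)).mp F) ∨
      ¬ GoodR t α E η N ((cT (c.1 - 96 * N) (c.2 - 128 * N)).mp F)) ∨
    (¬ GoodR t α E η N ((cV (c.1 - 128 * N) (c.2 + 96 * N)).mp F) ∨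
      ¬ GoodR t α E η N ((cV (c.1 - 128 * N) (c.2 - 96 * N)).mp F))) w_ok ?_) ?_
  · intro F _ hbad
    by_contra hcon
    push Not at hcon
    obtain ⟨⟨g1, g2⟩, g3, g4⟩ := hcon
    apply hbad
    intro u v hu hv hR
    have hsub : ∀ {a b : Vtx}, Reach (↑F ∩ ↑(RE (c.1 - 144 * N) (c.1 + 144 * N)
        (c.2 - 144 * N) (c.2 + 144 * N))) a b → Reach (↑F : Set Edg) a b :=
      fun h => h.mono Set.inter_subset_left
    rcases annulus_cross hN1 hu hv hR with ⟨y, y', hy, hy', h1, h2⟩ | ⟨y, y', hy, hy', h1, h2⟩ |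
      ⟨x, x', hx, hx', h1, h2⟩ | ⟨x, x', hx, hx', h1, h2⟩
    · -- right
      refine good_chart (L := ↑(LRE (c.1 + 64 * N) (c.1 + 128 * N) (c.2 - 128 * N)
        (c.2 + 128 * N))) (Iso_cT _ _) ?_ (p := (c.1 + 64 * N, y)) (q := (c.1 + 128 * N, y'))
        (y := y - (c.2 - 128 * N)) (y' := y' - (c.2 - 128 * N)) ?_ ?_ ?_ ?_ ?_ ?_ ?_ g1
      · intro e he
        apply lre_cT
        rw [Finset.mem_coe] at he
        convert he using 2 <;> ring
      · rw [cT_ψ]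
        simp only [Prod.mk.injEq, and_true]
        ring
      · rw [cT_ψ]
        simp only [Prod.mk.injEq, and_true]
        ring
      · omega
      · omega
      · exact h2.mono (by rintro e ⟨⟨k1, _⟩, k2⟩; exact ⟨k1, k2⟩)
      · exact hsub h1
      · intro z hz1 hz2 hz3
        rw [cT_ψ] at hz1 hz2 hz3
        simp only at hz1 hz2 hz3
        rw [abs_le] at hz1 ⊢
        rw [abs_le]
        omega
    · -- left
      refine good_chart (L := ↑(LRE (c.1 - 128 * N) (c.1 - 64 * N) (c.2 - 128 * N)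
        (c.2 + 128 * N))) (Iso_cT _ _) ?_ (p := (c.1 - 128 * N, y)) (q := (c.1 - 64 * N, y'))
        (y := y - (c.2 - 128 * N)) (y' := y' - (c.2 - 128 * N)) ?_ ?_ ?_ ?_ ?_ ?_ ?_ g2
      · intro e he
        apply lre_cT
        rw [Finset.mem_coe] at he
        convert he using 2 <;> ring
      · rw [cT_ψ]
        simp only [Prod.mk.injEq, and_true]
        ring
      · rw [cT_ψ]
        simp only [Prod.mk.injEq, and_true]
        ring
      · omega
      · omega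
      · exact h2.mono (by rintro e ⟨⟨k1, _⟩, k2⟩; exact ⟨k1, k2⟩)
      · exact (hsub h1).trans (h2.mono (by rintro e ⟨⟨k1, _⟩, _⟩; exact k1)).symm
      · intro z hz1 hz2 hz3
        rw [cT_ψ] at hz1 hz2 hz3
        simp only at hz1 hz2 hz3
        rw [abs_le] at hz1 ⊢
        rw [abs_le]
        omega
    · -- top
      refine good_chart (L := ↑(TBE (c.1 - 128 * N) (c.1 + 128 * N) (c.2 + 64 * N)
        (c.2 + 128 * N))) (Iso_cV _ _) ?_ (p := (x, c.2 + 64 * N)) (q := (x', c.2 + 128 * N))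
        (y := x - (c.1 - 128 * N)) (y' := x' - (c.1 - 128 * N)) ?_ ?_ ?_ ?_ ?_ ?_ ?_ g3
      · intro e he
        apply lre_cV
        rw [Finset.mem_coe] at he
        convert he using 2 <;> ring
      · rw [cV_ψ]
        simp only [Prod.mk.injEq, and_true]
        ring
      · rw [cV_ψ]
        simp only [Prod.mk.injEq, and_true]
        ring
      · omega
      · omega
      · exact h2.mono (by rintro e ⟨⟨k1, _⟩, k2⟩; exact ⟨k1, k2⟩)
      · exact hsub h1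
      · intro z hz1 hz2 hz3
        rw [cV_ψ] at hz1 hz2 hz3
        simp only at hz1 hz2 hz3
        rw [abs_le] at hz1 ⊢
        rw [abs_le]
        omega
    · -- bottom
      refine good_chart (L := ↑(TBE (c.1 - 128 * N) (c.1 + 128 * N) (c.2 - 128 * N)
        (c.2 - 64 * N))) (Iso_cV _ _) ?_ (p := (x, c.2 - 128 * N)) (q := (x', c.2 - 64 * N))
        (y := x - (c.1 - 128 * N)) (y' := x' - (c.1 - 128 * N)) ?_ ?_ ?_ ?_ ?_ ?_ ?_ g4
      · intro e he
        apply lre_cV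
        rw [Finset.mem_coe] at he
        convert he using 2 <;> ring
      · rw [cV_ψ]
        simp only [Prod.mk.injEq, and_true]
        ring
      · rw [cV_ψ]
        simp only [Prod.mk.injEq, and_true]
        ring
      · omega
      · omega
      · exact h2.mono (by rintro e ⟨⟨k1, _⟩, k2⟩; exact ⟨k1, k2⟩)
      · exact (hsub h1).trans (h2.mono (by rintro e ⟨⟨k1, _⟩, _⟩; exact k1)).symm
      · intro z hz1 hz2 hz3
        rw [cV_ψ] at hz1 hz2 hz3
        simp only at hz1 hz2 hz3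
        rw [abs_le] at hz1 ⊢
        rw [abs_le]
        omega
  · refine (Pr_or_le w_ok _ _ _).trans ?_
    have k1 := (Pr_or_le w_ok S (fun F => ¬ GoodR t α E η N
      ((cT (c.1 + 96 * N) (c.2 - 128 * N)).mp F)) (fun F => ¬ GoodR t α E η N
      ((cT (c.1 - 96 * N) (c.2 - 128 * N)).mp F)))
    have k2 := (Pr_or_le w_ok S (fun F => ¬ GoodR t α E η N
      ((cV (c.1 - 128 * N) (c.2 + 96 * N)).mp F)) (fun F => ¬ GoodR t α E η N
      ((cV (c.1 - 128 * N) (c.2 - 96 * N)).mp F)))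
    linarith

end Pool.Agent.H389R2.CL
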