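import Pool.Agent.H389R2.CL.Model
import Pool.Agent.H389R2.LV.Cross

set_option autoImplicit false
set_option maxHeartbeats 1000000
set_option linter.unusedSimpArgs false

namespace Pool.Agent.H389R2.CL

open H974 H934E Pool.Agent.H160R2.CV MeasureTheory TopologicalSpace Filter Topology Metric Set
open Pool.Agent.H389R2.Dim Pool.Agent.H389R2.CD Pool.Agent.H389R2.LV
open scoped ENNReal NNReal

/-- A path across an annulus crosses one of four rectangles. -/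
theorem annulus_cross {G : Set Edg} {c u v : Vtx} {N : ℤ} (hN : 1 ≤ N)
    (hu : |u.1 - c.1| ≤ 64 * N ∧ |u.2 - c.2| ≤ 64 * N)
    (hv : 128 * N ≤ |v.1 - c.1| ∨ 128 * N ≤ |v.2 - c.2|) (h : Reach G u v) :
    (∃ y y' : ℤ, (c.2 - 128 * N ≤ y ∧ y ≤ c.2 + 128 * N) ∧ (c.2 - 128 * N ≤ y' ∧ y' ≤ c.2 + 128 * N) ∧
      Reach G u (c.1 + 64 * N, y) ∧
      Reach (G ∩ ↑(LRE (c.1 + 64 * N) (c.1 + 128 * N) (c.2 - 128 * N) (c.2 + 128 * N)))
        (c.1 + 64 * N, y) (c.1 + 128 * N, y')) ∨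
    (∃ y y' : ℤ, (c.2 - 128 * N ≤ y ∧ y ≤ c.2 + 128 * N) ∧ (c.2 - 128 * N ≤ y' ∧ y' ≤ c.2 + 128 * N) ∧
      Reach G u (c.1 - 64 * N, y') ∧
      Reach (G ∩ ↑(LRE (c.1 - 128 * N) (c.1 - 64 * N) (c.2 - 128 * N) (c.2 + 128 * N)))
        (c.1 - 128 * N, y) (c.1 - 64 * N, y')) ∨
    (∃ x x' : ℤ, (c.1 - 128 * N ≤ x ∧ x ≤ c.1 + 128 * N) ∧ (c.1 - 128 * N ≤ x' ∧ x' ≤ c.1 + 128 * N) ∧
      Reach G u (x, c.2 + 64 * N) ∧
      Reach (G ∩ ↑(TBE (c.1 - 128 * N) (c.1 + 128 * N) (c.2 + 64 * N) (c.2 + 128 * N)))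
        (x, c.2 + 64 * N) (x', c.2 + 128 * N)) ∨
    (∃ x x' : ℤ, (c.1 - 128 * N ≤ x ∧ x ≤ c.1 + 128 * N) ∧ (c.1 - 128 * N ≤ x' ∧ x' ≤ c.1 + 128 * N) ∧
      Reach G u (x', c.2 - 64 * N) ∧
      Reach (G ∩ ↑(TBE (c.1 - 128 * N) (c.1 + 128 * N) (c.2 - 128 * N) (c.2 - 64 * N)))
        (x, c.2 - 128 * N) (x', c.2 - 64 * N)) := by
  obtain ⟨c1, c2⟩ := c
  obtain ⟨u1, u2⟩ := u
  obtain ⟨v1, v2⟩ := v
  simp only at hu hv ⊢
  obtain ⟨hu1, hu2⟩ := hu
  rw [abs_le] at hu1 hu2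
  obtain ⟨⟨w1, w2⟩, hw, hbd, hr⟩ := first_exit (a := c1 - 128 * N) (b := c1 + 128 * N)
    (c := c2 - 128 * N) (d := c2 + 128 * N) (u := (u1, u2)) (v := (v1, v2))
    (by unfold inR; simp only; omega) h (by
      simp only
      rcases hv with hv | hv
      · rcases le_abs.1 hv with h1 | h1
        · right; left; omega
        · left; omega
      · rcases le_abs.1 hv with h1 | h1
        · right; right; right; omega
        · right; right; left; omega)
  obtain ⟨⟨hw1, hw2⟩, hw3, hw4⟩ := hw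
  simp only at hw1 hw2 hw3 hw4 hbd
  have hsub : G ∩ ↑(RE (c1 - 128 * N) (c1 + 128 * N) (c2 - 128 * N) (c2 + 128 * N)) ⊆ G :=
    Set.inter_subset_left
  have hsub' : ∀ T : Finset Edg, (G ∩ ↑(RE (c1 - 128 * N) (c1 + 128 * N) (c2 - 128 * N)
      (c2 + 128 * N))) ∩ (↑T : Set Edg) ⊆ G ∩ ↑T :=
    fun T e he => ⟨he.1.1, he.2⟩
  rcases hbd with hb | hb | hb | hb
  · -- left
    right; left
    obtain ⟨y1, y2, k1, k2, k3, k4⟩ := sub_LR (a := c1 - 128 * N) (b := c1 - 64 * N)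
      (c := c2 - 128 * N) (d := c2 + 128 * N) (by omega)
      (by rintro x y ⟨-, h⟩ _ _; simp only [Finset.mem_coe, mem_RE_true] at h; omega)
      (by rintro x y ⟨-, h⟩ _ _; simp only [Finset.mem_coe, mem_RE_false] at h; omega)
      hr.symm (by simp only; omega) (by simp only; omega)
    exact ⟨y1, y2, k1, k2, (hr.mono hsub).trans ((k4.mono hsub).trans
      ((k3.mono (hsub' _)).mono Set.inter_subset_left)), k3.mono (hsub' _)⟩
  · -- right
    left
    obtain ⟨y1, y2, k1, k2, k3, k4⟩ := sub_LR (a := c1 + 64 * N) (b := c1 + 128 * N)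
      (c := c2 - 128 * N) (d := c2 + 128 * N) (by omega)
      (by rintro x y ⟨-, h⟩ _ _; simp only [Finset.mem_coe, mem_RE_true] at h; omega)
      (by rintro x y ⟨-, h⟩ _ _; simp only [Finset.mem_coe, mem_RE_false] at h; omega)
      hr (by simp only; omega) (by simp only; omega)
    exact ⟨y1, y2, k1, k2, k4.mono hsub, k3.mono (hsub' _)⟩
  · -- bottom
    right; right; right
    obtain ⟨x1, x2, k1, k2, k3, k4⟩ := sub_TB (c := c2 - 128 * N) (d := c2 - 64 * N)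
      (a := c1 - 128 * N) (b := c1 + 128 * N) (by omega)
      (by rintro x y ⟨-, h⟩ _ _; simp only [Finset.mem_coe, mem_RE_false] at h; omega)
      (by rintro x y ⟨-, h⟩ _ _; simp only [Finset.mem_coe, mem_RE_true] at h; omega)
      hr.symm (by simp only; omega) (by simp only; omega)
    exact ⟨x1, x2, k1, k2, (hr.mono hsub).trans ((k4.mono hsub).trans
      ((k3.mono (hsub' _)).mono Set.inter_subset_left)), k3.mono (hsub' _)⟩
  · -- top
    right; right; left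
    obtain ⟨x1, x2, k1, k2, k3, k4⟩ := sub_TB (c := c2 + 64 * N) (d := c2 + 128 * N)
      (a := c1 - 128 * N) (b := c1 + 128 * N) (by omega)
      (by rintro x y ⟨-, h⟩ _ _; simp only [Finset.mem_coe, mem_RE_false] at h; omega)
      (by rintro x y ⟨-, h⟩ _ _; simp only [Finset.mem_coe, mem_RE_true] at h; omega)
      hr (by simp only; omega) (by simp only; omega)
    exact ⟨x1, x2, k1, k2, k4.mono hsub, k3.mono (hsub' _)⟩

end Pool.Agent.H389R2.CL
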