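import Pool.Agent.H389R2.CL.Up

/-!
# The wired arc is contained in a member of every limit of the collection of all clusters
-/

set_option autoImplicit false
set_option maxHeartbeats 1000000

namespace Pool.Agent.H389R2.CL

open H974 H934E Pool.Agent.H160R2.CV MeasureTheory TopologicalSpace Filter Topology Metric Set
open Pool.Agent.H389R2.Dim Pool.Agent.H389R2.CD
open scoped ENNReal NNReal

theorem arc_near_aux (R : Rect) {δ : ℝ} (F : Finset Edg) {w : ℂ} {v : Vtx}
    (hv : Reach (R.wired δ) (0, 0) v) (h1 : |w.re - δ * v.1| ≤ 4 * δ)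
    (h2 : |w.im - δ * (v.2 + 1)| ≤ 4 * δ) :
    ∃ z ∈ clAt R δ F (0, 0), dist w z ≤ 8 * δ := by
  refine ⟨pt δ v, Or.inl ⟨v, hv.mono Set.subset_union_right, rfl⟩, ?_⟩
  rw [Complex.dist_eq]
  refine (Complex.norm_le_abs_re_add_abs_im _).trans ?_
  rw [Complex.sub_re, Complex.sub_im]
  have e1 : (pt δ v).re = δ * v.1 := rfl
  have e2 : (pt δ v).im = δ * (v.2 + 1) := rfl
  rw [e1, e2]
  linarith

/-- Every point of the arc is within `4 δ` of the wired cluster. -/
theorem arc_near (R : Rect) {δ : ℝ} (hδ : 0 < δ) (h1 : 4 * δ < R.L0) (F : Finset Edg) :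
    ∀ w ∈ arc R, ∃ z ∈ clAt R δ F (0, 0), dist w z ≤ 8 * δ := by
  obtain ⟨g1, g2, _, _⟩ := R.small_geom hδ h1
  obtain ⟨⟨a1, a2⟩, _, ⟨c1, c2⟩, _⟩ := R.small_geom2 hδ
  have hsA : δ * (R.A / δ) = R.A := by field_simp
  have hsH : δ * (R.H / δ) = R.H := by field_simp
  have b2 : δ * (R.x0 δ : ℝ) ≤ -R.A + δ := by
    have := mul_le_mul_of_nonneg_left a2 hδ.le
    nlinarith
  have e1 : R.H - 2 * δ ≤ δ * (R.y1 δ : ℝ) := by
    have := mul_le_mul_of_nonneg_left c1 hδ.le
    nlinarith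
  have e2 : δ * (R.y1 δ : ℝ) ≤ R.H - δ := by
    have := mul_le_mul_of_nonneg_left c2.le hδ.le
    nlinarith
  have hfl : ∀ s : ℝ, δ * (⌊s / δ⌋ : ℝ) ≤ s ∧ s ≤ δ * (⌊s / δ⌋ : ℝ) + δ := by
    intro s
    have f1 := Int.floor_le (s / δ)
    have f2 := (Int.lt_floor_add_one (s / δ)).le
    rw [le_div_iff₀ hδ] at f1
    rw [div_le_iff₀ hδ] at f2
    constructor <;> linarith
  rintro w (⟨hw1, hw2, hw3⟩ | ⟨hw1, hw2, hw3⟩ | ⟨hw1, hw2, hw3⟩)
  · -- top
    obtain ⟨f1, f2⟩ := hfl w.re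
    by_cases hx : R.x0 δ ≤ ⌊w.re / δ⌋
    · have htc : ⌊w.re / δ⌋ ≤ R.tc δ := by
        unfold Rect.tc
        exact Int.floor_le_floor (div_le_div_of_nonneg_right hw3 hδ.le)
      refine arc_near_aux R F (wired_top R g1.le g2.le hx htc) ?_ ?_
      · rw [abs_le]; constructor <;> linarith
      · rw [abs_le, hw1]; constructor <;> linarith
    · push Not at hx
      have hx' : (⌊w.re / δ⌋ : ℝ) + 1 ≤ R.x0 δ := by exact_mod_cast hx
      have hx2 : δ * ((⌊w.re / δ⌋ : ℝ) + 1) ≤ δ * R.x0 δ := mul_le_mul_of_nonneg_left hx' hδ.le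
      refine arc_near_aux R F (wired_left R g1.le g2.le le_rfl) ?_ ?_
      · simp only; rw [abs_le]; constructor <;> linarith
      · simp only; rw [abs_le, hw1]; constructor <;> linarith
  · -- left
    obtain ⟨f1, f2⟩ := hfl w.im
    have b1 : -R.A ≤ δ * (R.x0 δ : ℝ) := by
      have := mul_le_mul_of_nonneg_left a1.le hδ.le
      nlinarith
    by_cases hy : ⌊w.im / δ⌋ ≤ R.y1 δ
    · have hy0 : 0 ≤ ⌊w.im / δ⌋ := Int.floor_nonneg.mpr (div_nonneg hw2 hδ.le)
      refine arc_near_aux R F (wired_left R g1.le hy0 hy) ?_ ?_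
      · simp only; rw [abs_le, hw1]; constructor <;> linarith
      · simp only; rw [abs_le]; constructor <;> linarith
    · push Not at hy
      have hy' : (R.y1 δ : ℝ) + 1 ≤ ⌊w.im / δ⌋ := by exact_mod_cast hy
      have hy2 : δ * ((R.y1 δ : ℝ) + 1) ≤ δ * ⌊w.im / δ⌋ := mul_le_mul_of_nonneg_left hy' hδ.le
      refine arc_near_aux R F (wired_left R g1.le g2.le le_rfl) ?_ ?_
      · simp only; rw [abs_le, hw1]; constructor <;> linarith
      · simp only; rw [abs_le]; constructor <;> linarith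
  · -- bottom
    obtain ⟨f1, f2⟩ := hfl w.re
    by_cases hx : R.x0 δ ≤ ⌊w.re / δ⌋
    · have hx0 : ⌊w.re / δ⌋ ≤ 0 := by
        have : ⌊w.re / δ⌋ ≤ ⌊(0 : ℝ)⌋ :=
          Int.floor_le_floor (div_nonpos_of_nonpos_of_nonneg hw3 hδ.le)
        simpa using this
      refine arc_near_aux R F (wired_bot R hx hx0) ?_ ?_
      · simp only; rw [abs_le]; constructor <;> linarith
      · simp only [Int.cast_zero]; rw [abs_le, hw1]; constructor <;> linarith
    · push Not at hx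
      have hx' : (⌊w.re / δ⌋ : ℝ) + 1 ≤ R.x0 δ := by exact_mod_cast hx
      have hx2 : δ * ((⌊w.re / δ⌋ : ℝ) + 1) ≤ δ * R.x0 δ := mul_le_mul_of_nonneg_left hx' hδ.le
      refine arc_near_aux R F (wired_bot R le_rfl g1.le) ?_ ?_
      · simp only; rw [abs_le]; constructor <;> linarith
      · simp only [Int.cast_zero]; rw [abs_le, hw1]; constructor <;> linarith

/-- The sets which come within `r` of all points of `A`. -/
def nearSet (A : Set ℂ) (r : ℝ) : Set (NonemptyCompacts ℂ) :=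
  {K | ∀ w ∈ A, infDist w (K : Set ℂ) ≤ r}

theorem nearSet_closed (A : Set ℂ) (r : ℝ) : IsClosed (nearSet A r) := by
  have h : nearSet A r = ⋂ w ∈ A, {K : NonemptyCompacts ℂ | infDist w (K : Set ℂ) ≤ r} := by
    ext K
    simp [nearSet]
  rw [h]
  refine isClosed_biInter fun w _ => ?_
  exact isClosed_le (Metric.lipschitz_infDist_set w).continuous continuous_const

/-- The collections with a member in a closed set. -/
theorem hit_closed {X : Set (NonemptyCompacts ℂ)} (hX : IsClosed X) :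
    IsClosed {𝒞 : NonemptyCompacts (NonemptyCompacts ℂ) |
      ((𝒞 : Set (NonemptyCompacts ℂ)) ∩ X).Nonempty} :=
  NonemptyCompacts.isClosed_inter_nonempty_of_isClosed hX

/-- If `𝒞` has, for every `m`, a member within `1/(m+1)` of all points of `A`, then a member of `𝒞`
contains `A`. -/
theorem mem_of_near {A : Set ℂ} {𝒞 : NonemptyCompacts (NonemptyCompacts ℂ)}
    (h : ∀ m : ℕ, ((𝒞 : Set (NonemptyCompacts ℂ)) ∩ nearSet A (1 / ((m : ℝ) + 1))).Nonempty) :
    ∃ K ∈ 𝒞, A ⊆ (K : Set ℂ) := by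
  choose K hK1 hK2 using h
  obtain ⟨L, hL, φ, hφ, hlim⟩ := 𝒞.isCompact.tendsto_subseq hK1
  refine ⟨L, hL, ?_⟩
  intro w hw
  have hcl : IsClosed (L : Set ℂ) := L.isCompact.isClosed
  rw [hcl.mem_iff_infDist_zero L.nonempty]
  refine le_antisymm ?_ infDist_nonneg
  have h1 : Tendsto (fun m => infDist w (K (φ m) : Set ℂ)) atTop (𝓝 (infDist w (L : Set ℂ))) :=
    ((Metric.lipschitz_infDist_set w).continuous.tendsto L).comp hlim
  have h2 : Tendsto (fun m : ℕ => 1 / (((φ m : ℕ) : ℝ) + 1)) atTop (𝓝 0) :=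
    (tendsto_one_div_add_atTop_nhds_zero_nat (𝕜 := ℝ)).comp hφ.tendsto_atTop
  exact le_of_tendsto_of_tendsto' h1 h2 (fun m => hK2 (φ m) w hw)

theorem arc_mem (R : Rect) {δ : ℕ → ℝ} (hδ : ∀ i, 0 < δ i) (hlim : Tendsto δ atTop (𝓝 0))
    {μ : ProbabilityMeasure (NonemptyCompacts (NonemptyCompacts ℂ))}
    (hμ : Tendsto (fun i => collLaw R (δ i)) atTop (𝓝 μ)) :
    ∀ᵐ (𝒞 : NonemptyCompacts (NonemptyCompacts ℂ))
      ∂(μ : Measure (NonemptyCompacts (NonemptyCompacts ℂ))),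
      ∃ K ∈ 𝒞, arc R ⊆ (K : Set ℂ) := by
  have key : ∀ m : ℕ, ∀ᵐ (𝒞 : NonemptyCompacts (NonemptyCompacts ℂ))
      ∂(μ : Measure (NonemptyCompacts (NonemptyCompacts ℂ))),
      ((𝒞 : Set (NonemptyCompacts ℂ)) ∩ nearSet (arc R) (1 / ((m : ℝ) + 1))).Nonempty := by
    intro m
    have hm : (0 : ℝ) < 1 / ((m : ℝ) + 1) := by positivity
    have hcl := hit_closed (nearSet_closed (arc R) (1 / ((m : ℝ) + 1)))
    have h1 : (1 : ℝ≥0∞) ≤ (μ : Measure (NonemptyCompacts (NonemptyCompacts ℂ)))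
        {𝒞 : NonemptyCompacts (NonemptyCompacts ℂ) |
          ((𝒞 : Set (NonemptyCompacts ℂ)) ∩ nearSet (arc R) (1 / ((m : ℝ) + 1))).Nonempty} := by
      refine le_trans ?_ (ProbabilityMeasure.limsup_measure_closed_le_of_tendsto hμ hcl)
      apply Filter.le_limsup_of_frequently_le'
      apply Eventually.frequently
      filter_upwards [hlim.eventually_lt_const (div_pos R.L0_pos (by norm_num : (0:ℝ) < 4)),
        hlim.eventually_lt_const (div_pos hm (by norm_num : (0:ℝ) < 8))] with i hi1 hi2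
      rw [collLaw_apply _ _ hcl.measurableSet]
      have : Pr P (R.edges (δ i)) (fun F => coll R (δ i) F ∈
          {𝒞 : NonemptyCompacts (NonemptyCompacts ℂ) |
            ((𝒞 : Set (NonemptyCompacts ℂ)) ∩
              nearSet (arc R) (1 / ((m : ℝ) + 1))).Nonempty}) = 1 := by
        apply Pr_true
        intro F _
        refine ⟨clAt R (δ i) F (0, 0), ⟨_, Set.mem_insert _ _, rfl⟩, ?_⟩
        intro w hw
        obtain ⟨z, hz1, hz2⟩ := arc_near R (hδ i) (by linarith) F w hw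
        refine (infDist_le_dist_of_mem hz1).trans (hz2.trans ?_)
        linarith
      rw [this, ENNReal.ofReal_one]
    exact (mem_ae_iff_prob_eq_one hcl.measurableSet).mpr (le_antisymm prob_le_one h1)
  filter_upwards [ae_all_iff.mpr key] with 𝒞 h𝒞
  exact mem_of_near h𝒞

end Pool.Agent.H389R2.CL
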