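import Pool.Agent.H389R2.CL.Gen

/-!
# The collection of clusters: relative compactness, containment in the rectangle
-/

set_option autoImplicit false
set_option maxHeartbeats 1000000
set_option linter.unusedSimpArgs false

namespace Pool.Agent.H389R2.CL

open H974 H934E Pool.Agent.H160R2.CV MeasureTheory TopologicalSpace Filter Topology Metric Set
open Pool.Agent.H389R2.Dim Pool.Agent.H389R2.CD
open scoped ENNReal NNReal

theorem cluAt_verts (R : Rect) {δ : ℝ} (hδ : 0 < δ) (h1 : 4 * δ < R.L0) {F : Finset Edg}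
    (hF : F ⊆ R.edges δ) {v : Vtx} (hv : v ∈ insert (0, 0) (↑(R.verts δ) : Set Vtx)) {u : Vtx}
    (hu : u ∈ cluAt R δ F v) : u ∈ R.verts δ := by
  obtain ⟨g1, g2, g3, g4⟩ := R.small_geom hδ h1
  refine H973.reach_mem (F := (↑F ∪ R.wired δ : Set Edg)) ?_ ?_ hu
  · rintro ⟨x, y, b⟩ (he | he)
    · exact hF (Finset.mem_coe.mp he)
    · simp only [Rect.wired, Set.mem_ofPred_eq] at he
      rw [H973.mem_ES, Rect.mem_verts', Rect.mem_verts']
      rcases he with ⟨rfl, h⟩ | ⟨rfl, h⟩ | ⟨rfl, h⟩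
      · simp only [src_mk, tgt_true]; omega
      · simp only [src_mk, tgt_false]; omega
      · simp only [src_mk, tgt_true]; omega
  · rcases hv with rfl | hv
    · rw [Rect.mem_verts']; simp only; omega
    · exact hv

theorem mem_coll' {R : Rect} {δ : ℝ} {F : Finset Edg} {K : NonemptyCompacts ℂ}
    (h : K ∈ coll R δ F) :
    ∃ v ∈ insert (0, 0) (↑(R.verts δ) : Set Vtx), K = clAt R δ F v := by
  obtain ⟨v, hv, rfl⟩ := (h : K ∈ clAt R δ F '' (insert (0, 0) (↑(R.verts δ) : Set Vtx)))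
  exact ⟨v, hv, rfl⟩

theorem convex_cRect (R : Rect) : Convex ℝ (cRect R) := by
  have e : cRect R = ({z : ℂ | -R.A ≤ z.re} ∩ {z : ℂ | z.re ≤ R.B}) ∩
      ({z : ℂ | 0 ≤ z.im} ∩ {z : ℂ | z.im ≤ R.H}) := by
    ext z; rfl
  rw [e]
  exact ((convex_halfSpace_re_ge _).inter (convex_halfSpace_re_le _)).inter
    ((convex_halfSpace_im_ge _).inter (convex_halfSpace_im_le _))

theorem coll_cRect (R : Rect) {δ : ℝ} (hδ : 0 < δ) (h1 : 4 * δ < R.L0) {F : Finset Edg}
    (hF : F ⊆ R.edges δ) {K : NonemptyCompacts ℂ} (hK : K ∈ coll R δ F) :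
    (K : Set ℂ) ⊆ cRect R := by
  obtain ⟨v0, hv0, rfl⟩ := mem_coll' hK
  have hv : ∀ v : Vtx, v ∈ cluAt R δ F v0 → pt δ v ∈ cRect R := by
    intro v hv
    have h3 := (R.mem_verts hδ).mp (cluAt_verts R hδ h1 hF hv0 hv)
    unfold Rect.D at h3
    obtain ⟨a1, a2, a3, a4⟩ := h3
    exact ⟨⟨a1.le, a2.le⟩, a3.le, a4.le⟩
  rintro z (⟨v, hv', rfl⟩ | hz)
  · exact hv v hv'
  · rw [Set.mem_iUnion₂] at hz
    obtain ⟨e, ⟨he1, he2⟩, hz2⟩ := hz
    have he3 : tgt e ∈ cluAt R δ F v0 := Reach.trans he2 (Adj.reach ⟨e, he1, Or.inl ⟨rfl, rfl⟩⟩)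
    exact (convex_cRect R).segment_subset (hv _ he2) (hv _ he3) hz2

theorem coll_precompact (R : Rect) {δ : ℕ → ℝ} (hδ : ∀ i, 0 < δ i)
    (hlim : Tendsto δ atTop (𝓝 0)) :
    ∃ φ : ℕ → ℕ, StrictMono φ ∧ ∃ μ : ProbabilityMeasure (NonemptyCompacts (NonemptyCompacts ℂ)),
      Tendsto (fun i => collLaw R (δ (φ i))) atTop (𝓝 μ) := by
  obtain ⟨N, hN⟩ := eventually_atTop.mp
    (hlim.eventually_lt_const (div_pos R.L0_pos (by norm_num : (0:ℝ) < 4)))
  set T : Set (ProbabilityMeasure (NonemptyCompacts (NonemptyCompacts ℂ))) :=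
    Set.range (fun i => collLaw R (δ (i + N))) with hT
  have htight : IsTightMeasureSet {((ν : ProbabilityMeasure (NonemptyCompacts (NonemptyCompacts ℂ))) :
      Measure (NonemptyCompacts (NonemptyCompacts ℂ))) | ν ∈ T} := by
    rw [isTightMeasureSet_iff_exists_isCompact_measure_compl_le]
    intro ε _
    have hK := NonemptyCompacts.isCompact_subsets_of_isCompact
      (NonemptyCompacts.isCompact_subsets_of_isCompact (isCompact_cRect R))
    refine ⟨_, hK, ?_⟩
    rintro ν ⟨ν', ⟨i, rfl⟩, rfl⟩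
    rw [collLaw_apply _ _ hK.isClosed.measurableSet.compl]
    have hsm : 4 * δ (i + N) < R.L0 := by
      have := hN (i + N) (by omega)
      linarith
    have h0 : Pr P (R.edges (δ (i + N))) (fun F => coll R (δ (i + N)) F ∈
        {𝒞 : NonemptyCompacts (NonemptyCompacts ℂ) | (𝒞 : Set (NonemptyCompacts ℂ)) ⊆
          {L : NonemptyCompacts ℂ | (L : Set ℂ) ⊆ cRect R}}ᶜ) = 0 := by
      have : Pr P (R.edges (δ (i + N))) (fun F => coll R (δ (i + N)) F ∈
        {𝒞 : NonemptyCompacts (NonemptyCompacts ℂ) | (𝒞 : Set (NonemptyCompacts ℂ)) ⊆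
          {L : NonemptyCompacts ℂ | (L : Set ℂ) ⊆ cRect R}}ᶜ) =
          Pr P (R.edges (δ (i + N))) (fun _ => False) := by
        apply Pr_congr
        intro F hF
        rw [iff_false]
        intro h2
        apply h2
        intro K hK
        exact coll_cRect R (hδ _) hsm hF hK
      rw [this]
      unfold Pr
      have h0 : (fun F : Finset Edg => ind False) = fun _ => (0:ℝ) := by
        funext F; exact ind_not_of (fun h => h)
      rw [h0, Ex_const]
    rw [h0, ENNReal.ofReal_zero]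
    exact bot_le
  have hcomp := isCompact_closure_of_isTightMeasureSet htight
  obtain ⟨μ, _, φ, hφ, hμ⟩ := hcomp.tendsto_subseq
    (x := fun i => collLaw R (δ (i + N))) (fun i => subset_closure ⟨i, rfl⟩)
  exact ⟨fun i => φ i + N, fun i j h => by simpa using hφ h, μ, hμ⟩

section

variable (R : Rect) {δ : ℕ → ℝ} (hδ : ∀ i, 0 < δ i) (hlim : Tendsto δ atTop (𝓝 0))
  {μ : ProbabilityMeasure (NonemptyCompacts (NonemptyCompacts ℂ))}
  (hμ : Tendsto (fun i => collLaw R (δ i)) atTop (𝓝 μ))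

include hμ

/-- Open events in the limit. -/
theorem coll_lim_le {G : Set (NonemptyCompacts ℂ)} (hG : IsOpen G) {q : ℝ}
    (h : ∃ᶠ i in atTop, Pr P (R.edges (δ i)) (fun F => ∃ v : Vtx, clAt R (δ i) F v ∈ G) ≤ q) :
    (μ : Measure (NonemptyCompacts (NonemptyCompacts ℂ)))
      {𝒞 | ((𝒞 : Set (NonemptyCompacts ℂ)) ∩ G).Nonempty} ≤ ENNReal.ofReal q := by
  refine (ProbabilityMeasure.le_liminf_measure_open_of_tendsto hμ
    (NonemptyCompacts.isOpen_inter_nonempty_of_isOpen hG)).trans ?_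
  apply Filter.liminf_le_of_frequently_le'
  refine h.mono ?_
  intro i hi
  exact (collLaw_exists_le R (δ i) hG).trans (ENNReal.ofReal_le_ofReal hi)

include hδ hlim

theorem coll_sub : ∀ᵐ 𝒞 : NonemptyCompacts (NonemptyCompacts ℂ)
    ∂(μ : Measure (NonemptyCompacts (NonemptyCompacts ℂ))), ∀ K ∈ 𝒞, (K : Set ℂ) ⊆ cRect R := by
  have hG : IsOpen {L : NonemptyCompacts ℂ | ((L : Set ℂ) ∩ (cRect R)ᶜ).Nonempty} :=
    NonemptyCompacts.isOpen_inter_nonempty_of_isOpen (isClosed_cRect R).isOpen_compl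
  have h1 : (μ : Measure (NonemptyCompacts (NonemptyCompacts ℂ)))
      {𝒞 | ((𝒞 : Set (NonemptyCompacts ℂ)) ∩
        {L : NonemptyCompacts ℂ | ((L : Set ℂ) ∩ (cRect R)ᶜ).Nonempty}).Nonempty} ≤ 0 := by
    refine (ProbabilityMeasure.le_liminf_measure_open_of_tendsto hμ
      (NonemptyCompacts.isOpen_inter_nonempty_of_isOpen hG)).trans ?_
    apply Filter.liminf_le_of_frequently_le'
    apply Eventually.frequently
    filter_upwards [hlim.eventually_lt_const (div_pos R.L0_pos (by norm_num : (0:ℝ) < 4))] with i hi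
    rw [collLaw_apply _ _ (NonemptyCompacts.isOpen_inter_nonempty_of_isOpen hG).measurableSet]
    have : Pr P (R.edges (δ i)) (fun F => coll R (δ i) F ∈
        {𝒞 : NonemptyCompacts (NonemptyCompacts ℂ) | ((𝒞 : Set (NonemptyCompacts ℂ)) ∩
        {L : NonemptyCompacts ℂ | ((L : Set ℂ) ∩ (cRect R)ᶜ).Nonempty}).Nonempty}) =
        Pr P (R.edges (δ i)) (fun _ => False) := by
      apply Pr_congr
      intro F hF
      rw [iff_false]
      rintro ⟨K, hK, x, hx1, hx2⟩
      exact hx2 (coll_cRect R (hδ _) (by linarith) hF hK hx1)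
    rw [this]
    unfold Pr
    have h0 : (fun F : Finset Edg => ind False) = fun _ => (0:ℝ) := by
      funext F; exact ind_not_of (fun h => h)
    rw [h0, Ex_const, ENNReal.ofReal_zero]
  rw [ae_iff]
  refine le_antisymm (le_trans (measure_mono ?_) h1) bot_le
  intro 𝒞 h𝒞
  rw [Set.mem_ofPred_eq] at h𝒞
  push Not at h𝒞
  obtain ⟨K, hK1, hK2⟩ := h𝒞
  rw [Set.not_subset] at hK2
  obtain ⟨x, hx1, hx2⟩ := hK2
  exact ⟨K, hK1, x, hx1, hx2⟩

end

end Pool.Agent.H389R2.CL
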