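import Pool.Agent.H389R2.CL.Blocks

set_option autoImplicit false
set_option maxHeartbeats 1000000
set_option linter.unusedSimpArgs false

namespace Pool.Agent.H389R2.CL

open H974 H934E Pool.Agent.H160R2.CV MeasureTheory TopologicalSpace Filter Topology Metric Set
open Pool.Agent.H389R2.Dim Pool.Agent.H389R2.CD
open scoped ENNReal NNReal

namespace BD

/-- a path in the edges of a box stays in the box -/
theorem reach_inR {G : Set Edg} {A B C D : ℤ} {p q : Vtx} (hp : inR A B C D p)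
    (h : Reach (G ∩ ↑(RE A B C D)) p q) : inR A B C D q := by
  induction h with
  | refl => exact hp
  | @tail v w _ hs _ =>
    obtain ⟨⟨x, y, b⟩, ⟨-, he⟩, hc⟩ := hs
    have he' : ((x, y, b) : Edg) ∈ RE A B C D := he
    unfold inR
    cases b
    · rw [mem_RE_false] at he'
      simp only [src_mk, tgt_false] at hc
      rcases hc with ⟨h1, h2⟩ | ⟨h1, h2⟩
      · rw [← h2]; simp only; omega
      · rw [← h1]; simp only; omega
    · rw [mem_RE_true] at he'
      simp only [src_mk, tgt_true] at hc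
      rcases hc with ⟨h1, h2⟩ | ⟨h1, h2⟩
      · rw [← h2]; simp only; omega
      · rw [← h1]; simp only; omega

/-- a step changes the height by at most one, and the edge is determined -/
theorem step_low {G : Set Edg} {A B C D T : ℤ} {v w : Vtx} (hv : v.2 ≤ T) (hw : w.2 ≤ T)
    (hs : Adj (G ∩ ↑(LRE A B C D)) v w) : Adj (G ∩ ↑(RE A B C T)) v w := by
  obtain ⟨⟨x, y, b⟩, ⟨h1, h2⟩, hc⟩ := hs
  have h2' : ((x, y, b) : Edg) ∈ LRE A B C D := h2
  refine ⟨(x, y, b), ⟨h1, ?_⟩, hc⟩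
  show ((x, y, b) : Edg) ∈ RE A B C T
  cases b
  · rw [mem_LRE_false] at h2'
    rw [mem_RE_false]
    simp only [src_mk, tgt_false] at hc
    rcases hc with ⟨h3, h4⟩ | ⟨h3, h4⟩
    · rw [← h4] at hw; simp only at hw; omega
    · rw [← h4] at hv; simp only at hv; omega
  · rw [mem_LRE_true] at h2'
    rw [mem_RE_true]
    simp only [src_mk, tgt_true] at hc
    rcases hc with ⟨h3, h4⟩ | ⟨h3, h4⟩
    · rw [← h3] at hv; simp only at hv; omega
    · rw [← h3] at hw; simp only at hw; omega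

theorem step_high {G : Set Edg} {A B C D T : ℤ} {v w : Vtx} (hv : T ≤ v.2) (hw : T ≤ w.2)
    (hs : Adj (G ∩ ↑(LRE A B C D)) v w) : Adj (G ∩ ↑(RE A B T D)) v w := by
  obtain ⟨⟨x, y, b⟩, ⟨h1, h2⟩, hc⟩ := hs
  have h2' : ((x, y, b) : Edg) ∈ LRE A B C D := h2
  refine ⟨(x, y, b), ⟨h1, ?_⟩, hc⟩
  show ((x, y, b) : Edg) ∈ RE A B T D
  cases b
  · rw [mem_LRE_false] at h2'
    rw [mem_RE_false]
    simp only [src_mk, tgt_false] at hc
    rcases hc with ⟨h3, h4⟩ | ⟨h3, h4⟩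
    · rw [← h3] at hv; simp only at hv; omega
    · rw [← h3] at hw; simp only at hw; omega
  · rw [mem_LRE_true] at h2'
    rw [mem_RE_true]
    simp only [src_mk, tgt_true] at hc
    rcases hc with ⟨h3, h4⟩ | ⟨h3, h4⟩
    · rw [← h3] at hv; simp only at hv; omega
    · rw [← h3] at hw; simp only at hw; omega

theorem step_diff {G : Set Edg} {v w : Vtx} (hs : Adj G v w) : w.2 ≤ v.2 + 1 ∧ v.2 ≤ w.2 + 1 := by
  obtain ⟨⟨x, y, b⟩, -, hc⟩ := hs
  cases b
  · simp only [src_mk, tgt_false] at hc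
    rcases hc with ⟨h3, h4⟩ | ⟨h3, h4⟩
    · rw [← h3, ← h4]; simp only; omega
    · rw [← h3, ← h4]; simp only; omega
  · simp only [src_mk, tgt_true] at hc
    rcases hc with ⟨h3, h4⟩ | ⟨h3, h4⟩
    · rw [← h3, ← h4]; simp only; omega
    · rw [← h3, ← h4]; simp only; omega

theorem LRE_inR {G : Set Edg} {A B C D : ℤ} {p q : Vtx} (hp : inR A B C D p)
    (h : Reach (G ∩ ↑(LRE A B C D)) p q) : inR A B C D q :=
  reach_inR hp (h.mono (Set.inter_subset_inter_right _ (by exact_mod_cast LRE_subset_RE)))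

theorem core {G : Set Edg} {F : Finset Edg} {x0 x1 y0 y1 : ℤ} (hG : ∀ e ∈ G, e ∈ RE x0 x1 y0 y1)
    (hFG : (↑F : Set Edg) ⊆ G) {c u p q : Vtx} {L h a : ℤ} {n : ℕ} (hh : 1 ≤ h)
    (hhL : 4 * h ≤ L) (hn : (n : ℤ) * (2 * h + 1) ≤ 14 * L) (hy : 60 * L ≤ y1 - y0)
    (hx0 : x0 + h ≤ a) (hx1 : a + 14 * L ≤ x1 - h) (ha : c.1 - 28 * L ≤ a)
    (hb : a + 14 * L ≤ c.1 + 28 * L) (hc0 : y0 - 10 * L ≤ c.2) (hc1 : c.2 ≤ y1 + 10 * L)
    (hp : Reach G u p)
    (hpb : inR (c.1 - 28 * L) (c.1 + 28 * L) (c.2 - 28 * L) (c.2 + 28 * L) p)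
    (hpq : Reach (G ∩ ↑(RE (c.1 - 28 * L) (c.1 + 28 * L) (c.2 - 28 * L) (c.2 + 28 * L))) p q)
    (hp1 : p.1 ≤ a) (hq1 : a + 14 * L ≤ q.1)
    (hin : ∀ w : Vtx, Reach G u w →
      inR (c.1 - 28 * L) (c.1 + 28 * L) (c.2 - 28 * L) (c.2 + 28 * L) w →
      ¬ ((x0 + h ≤ w.1 ∧ w.1 ≤ x1 - h) ∧ (y0 + h ≤ w.2 ∧ w.2 ≤ y1 - h))) :
    NoTB h a y0 n F ∨ NoTB h a (y1 - 2 * h) n F := by
  obtain ⟨G', hG'⟩ : ∃ G' : Set Edg, G' = G ∩ ↑(RE (c.1 - 28 * L) (c.1 + 28 * L)
    (c.2 - 28 * L) (c.2 + 28 * L)) := ⟨_, rfl⟩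
  have hGG : G' ⊆ G := by rw [hG']; exact Set.inter_subset_left
  rw [← hG'] at hpq
  obtain ⟨z1, z2, hz1, hz2, hz, hpz⟩ := sub_LR (G := G') (a := a) (b := a + 14 * L) (c := y0)
    (d := y1) (by omega)
    (fun x y he _ _ => by have := hG _ (hGG he); rw [mem_RE_true] at this; omega)
    (fun x y he _ _ => by have := hG _ (hGG he); rw [mem_RE_false] at this; omega) hpq hp1 hq1
  have hbox1 : inR (c.1 - 28 * L) (c.1 + 28 * L) (c.2 - 28 * L) (c.2 + 28 * L) (a, z1) := by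
    rw [hG'] at hpz
    exact reach_inR hpb hpz
  have hu1 : Reach G u (a, z1) := hp.trans (hpz.mono hGG)
  -- all vertices of the crossing
  have hall : ∀ v, Reach (G' ∩ ↑(LRE a (a + 14 * L) y0 y1)) (a, z1) v →
      (a ≤ v.1 ∧ v.1 ≤ a + 14 * L) ∧ (y0 ≤ v.2 ∧ v.2 ≤ y1) ∧ (v.2 < y0 + h ∨ y1 - h < v.2) := by
    intro v hv
    have h1 : inR a (a + 14 * L) y0 y1 v := LRE_inR (by unfold inR; simp only; omega) hv
    have h2 : inR (c.1 - 28 * L) (c.1 + 28 * L) (c.2 - 28 * L) (c.2 + 28 * L) v := by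
      have h3 : Reach G' (a, z1) v := hv.mono Set.inter_subset_left
      rw [hG'] at h3
      exact reach_inR hbox1 h3
    have h3 := hin v (hu1.trans ((hv.mono Set.inter_subset_left).mono hGG)) h2
    unfold inR at h1
    refine ⟨h1.1, h1.2, ?_⟩
    by_contra hcon
    push Not at hcon
    exact h3 ⟨⟨by omega, by omega⟩, by omega, by omega⟩
  have h0 := (hall _ (Reach.refl _ _)).2.2
  simp only at h0
  have hblock : ∀ k : ℕ, k < n → (k : ℤ) * (2 * h + 1) + 2 * h ≤ 14 * L := by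
    intro k hk
    have h1 : ((k : ℤ) + 1) * (2 * h + 1) ≤ n * (2 * h + 1) :=
      mul_le_mul_of_nonneg_right (by exact_mod_cast hk) (by omega)
    linarith
  unfold inR at hbox1
  simp only at hbox1
  rcases h0 with h0 | h0
  · left
    have hlow : ∀ v, Reach (G' ∩ ↑(LRE a (a + 14 * L) y0 y1)) (a, z1) v →
        v.2 < y0 + h ∧ Reach (G ∩ ↑(RE a (a + 14 * L) y0 (y0 + h))) (a, z1) v := by
      intro v hv
      induction hv with
      | refl => exact ⟨h0, Reach.refl _ _⟩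
      | @tail v w hv hs ih =>
        obtain ⟨ih1, ih2⟩ := ih
        have h1 := step_diff hs
        have h2 := (hall w (hv.tail hs)).2.2
        have h3 : w.2 < y0 + h := by omega
        refine ⟨h3, ih2.trans (Adj.reach ?_)⟩
        exact step_low (by omega) h3.le
          (hs.mono (Set.inter_subset_inter_left _ hGG))
    intro k hk hTB
    obtain ⟨x, x', hx, hx', hcr⟩ := hTB
    have hb1 := hblock k hk
    have hk0 : 0 ≤ (k : ℤ) * (2 * h + 1) := mul_nonneg (by positivity) (by omega)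
    obtain ⟨kk, hkk⟩ : ∃ kk : ℤ, kk = (k : ℤ) * (2 * h + 1) := ⟨_, rfl⟩
    rw [← hkk] at hb1 hk0 hx hx' hcr
    have hcr' : Reach (G ∩ ↑(RE (a + kk) (a + kk + 2 * h) y0 (y0 + 2 * h))) (x, y0)
        (x', y0 + 2 * h) := hcr.mono (by
      rintro e ⟨h1, h2⟩
      exact ⟨hFG h1, TBE_subset_RE h2⟩)
    have hm := cross_meet (F := G) (A := a) (B := a + 14 * L) (C := y0) (D := y0 + 2 * h)
      (a := a + kk) (b := a + kk + 2 * h) (c := y0) (d := y0 + h) (by omega) (by omega) (by omega)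
      le_rfl (by omega) (by omega) (hlow _ hz).2 (by simp only; omega) (by simp only; omega)
      hcr' le_rfl (by simp only; omega)
    have hfin : Reach G u (x', y0 + 2 * h) :=
      (hu1.trans (hm.mono Set.inter_subset_left)).trans (hcr'.mono Set.inter_subset_left)
    refine hin _ hfin ?_ ?_
    · unfold inR
      simp only
      omega
    · simp only
      omega
  · right
    have hlow : ∀ v, Reach (G' ∩ ↑(LRE a (a + 14 * L) y0 y1)) (a, z1) v →
        y1 - h < v.2 ∧ Reach (G ∩ ↑(RE a (a + 14 * L) (y1 - h) y1)) (a, z1) v := by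
      intro v hv
      induction hv with
      | refl => exact ⟨h0, Reach.refl _ _⟩
      | @tail v w hv hs ih =>
        obtain ⟨ih1, ih2⟩ := ih
        have h1 := step_diff hs
        have h2 := (hall w (hv.tail hs)).2.2
        have h3 : y1 - h < w.2 := by omega
        refine ⟨h3, ih2.trans (Adj.reach ?_)⟩
        exact step_high (by omega) h3.le
          (hs.mono (Set.inter_subset_inter_left _ hGG))
    intro k hk hTB
    obtain ⟨x, x', hx, hx', hcr⟩ := hTB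
    have hb1 := hblock k hk
    have hk0 : 0 ≤ (k : ℤ) * (2 * h + 1) := mul_nonneg (by positivity) (by omega)
    obtain ⟨kk, hkk⟩ : ∃ kk : ℤ, kk = (k : ℤ) * (2 * h + 1) := ⟨_, rfl⟩
    rw [← hkk] at hb1 hk0 hx hx' hcr
    have e1 : y1 - 2 * h + 2 * h = y1 := by ring
    rw [e1] at hcr
    have hcr' : Reach (G ∩ ↑(RE (a + kk) (a + kk + 2 * h) (y1 - 2 * h) y1)) (x, y1 - 2 * h)
        (x', y1) := hcr.mono (by
      rintro e ⟨h1, h2⟩
      exact ⟨hFG h1, TBE_subset_RE h2⟩)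
    have hm := cross_meet (F := G) (A := a) (B := a + 14 * L) (C := y1 - 2 * h) (D := y1)
      (a := a + kk) (b := a + kk + 2 * h) (c := y1 - h) (d := y1) (by omega) (by omega) (by omega)
      (by omega) (by omega) le_rfl (hlow _ hz).2 (by simp only; omega) (by simp only; omega)
      hcr' (by simp only; omega) le_rfl
    have hfin : Reach G u (x, y1 - 2 * h) := hu1.trans (hm.mono Set.inter_subset_left)
    refine hin _ hfin ?_ ?_
    · unfold inR
      simp only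
      omega
    · simp only
      omega

/-- an endpoint of a nonempty path is in the domain -/
theorem dom_of_ne {G : Set Edg} {A B C D : ℤ} (hG : ∀ e ∈ G, e ∈ RE A B C D) {u w : Vtx}
    (h : Reach G u w) (hne : u ≠ w) : inR A B C D u ∧ inR A B C D w := by
  have h1 : ∀ u w : Vtx, Reach G u w → u ≠ w → inR A B C D w := by
    intro u w h hne
    cases h with
    | refl => exact absurd rfl hne
    | @tail v _ _ hs =>
      obtain ⟨⟨x, y, b⟩, he, hc⟩ := hs
      have he' := hG _ he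
      unfold inR
      cases b
      · rw [mem_RE_false] at he'
        simp only [src_mk, tgt_false] at hc
        rcases hc with ⟨h1, h2⟩ | ⟨h1, h2⟩
        · rw [← h2]; simp only; omega
        · rw [← h1]; simp only; omega
      · rw [mem_RE_true] at he'
        simp only [src_mk, tgt_true] at hc
        rcases hc with ⟨h1, h2⟩ | ⟨h1, h2⟩
        · rw [← h2]; simp only; omega
        · rw [← h1]; simp only; omega
  exact ⟨h1 w u h.symm hne.symm, h1 u w h hne⟩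

/-- the two vertical sides of the box -/
theorem horiz {G : Set Edg} {F : Finset Edg} {x0 x1 y0 y1 : ℤ} (hG : ∀ e ∈ G, e ∈ RE x0 x1 y0 y1)
    (hFG : (↑F : Set Edg) ⊆ G) {c u w : Vtx} {L h : ℤ} {n : ℕ} (hh : 1 ≤ h) (hhL : 4 * h ≤ L)
    (hn : (n : ℤ) * (2 * h + 1) ≤ 14 * L) (hy : 60 * L ≤ y1 - y0)
    (hu : inR (c.1 - 10 * L) (c.1 + 10 * L) (c.2 - 10 * L) (c.2 + 10 * L) u)
    (hwb : inR (c.1 - 28 * L) (c.1 + 28 * L) (c.2 - 28 * L) (c.2 + 28 * L) w)
    (hw : w.1 = c.1 - 28 * L ∨ w.1 = c.1 + 28 * L)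
    (hR : Reach (G ∩ ↑(RE (c.1 - 28 * L) (c.1 + 28 * L) (c.2 - 28 * L) (c.2 + 28 * L))) u w)
    (hin : ∀ w : Vtx, Reach G u w →
      inR (c.1 - 28 * L) (c.1 + 28 * L) (c.2 - 28 * L) (c.2 + 28 * L) w →
      ¬ ((x0 + h ≤ w.1 ∧ w.1 ≤ x1 - h) ∧ (y0 + h ≤ w.2 ∧ w.2 ≤ y1 - h))) :
    ∃ a : ℤ, (a = c.1 + 12 * L ∨ a = c.1 - 26 * L) ∧ (x0 ≤ a ∧ a + 14 * L ≤ x1) ∧
      (NoTB h a y0 n F ∨ NoTB h a (y1 - 2 * h) n F) := by
  unfold inR at hu
  have hne : u ≠ w := by
    rintro rfl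
    omega
  have hdom := dom_of_ne hG (hR.mono Set.inter_subset_left) hne
  unfold inR at hdom
  obtain ⟨hd1, hd2⟩ := hdom
  rcases hw with hw | hw
  · refine ⟨c.1 - 26 * L, Or.inr rfl, ⟨by omega, by omega⟩, ?_⟩
    exact core hG hFG (c := c) (u := u) (p := w) (q := u) hh hhL hn hy (by omega) (by omega)
      (by omega) (by omega) (by omega) (by omega) (hR.mono Set.inter_subset_left) hwb hR.symm
      (by omega) (by omega) hin
  · refine ⟨c.1 + 12 * L, Or.inl rfl, ⟨by omega, by omega⟩, ?_⟩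
    exact core hG hFG (c := c) (u := u) (p := u) (q := w) hh hhL hn hy (by omega) (by omega)
      (by omega) (by omega) (by omega) (by omega) (Reach.refl _ _) (by unfold inR; omega) hR
      (by omega) (by omega) hin

theorem NoLR_of {h a c : ℤ} {n : ℕ} {F : Finset Edg} (hN : NoTB h c a n (tps.mp F)) :
    NoLR h a c n F := by
  intro k hk hLR
  exact hN k hk (TBc_tps hLR)

theorem tps_mem_RE {G : Set Edg} {A B C D : ℤ} (hG : ∀ e ∈ G, e ∈ RE A B C D) :
    ∀ e ∈ tps.φ '' G, e ∈ RE C D A B := by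
  rintro e ⟨e', he', rfl⟩
  rw [← tps_RE, LSym.mem_mp, Equiv.symm_apply_apply]
  exact hG e' he'

end BD

open BD in
/-- If a path crosses an annulus of radii `10 L`, `28 L` around `c` and if its cluster avoids there
the vertices at distance at least `h` from the sides, then some long strip along a side has no
block which is crossed in the perpendicular direction. -/
theorem bdry_det {G : Set Edg} {F : Finset Edg} {x0 x1 y1 : ℤ} (hG : ∀ e ∈ G, e ∈ RE x0 x1 0 y1)
    (hFG : (↑F : Set Edg) ⊆ G) {c u v : Vtx} {L h : ℤ} {n : ℕ} (hh : 1 ≤ h) (hhL : 4 * h ≤ L)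
    (hn : (n : ℤ) * (2 * h + 1) ≤ 14 * L) (hx : 60 * L ≤ x1 - x0) (hy : 60 * L ≤ y1)
    (hu : inR (c.1 - 10 * L) (c.1 + 10 * L) (c.2 - 10 * L) (c.2 + 10 * L) u)
    (hv : v.1 ≤ c.1 - 28 * L ∨ c.1 + 28 * L ≤ v.1 ∨ v.2 ≤ c.2 - 28 * L ∨ c.2 + 28 * L ≤ v.2)
    (hR : Reach G u v)
    (hin : ∀ w : Vtx, Reach G u w →
      inR (c.1 - 28 * L) (c.1 + 28 * L) (c.2 - 28 * L) (c.2 + 28 * L) w →
      ¬ ((x0 + h ≤ w.1 ∧ w.1 ≤ x1 - h) ∧ (h ≤ w.2 ∧ w.2 ≤ y1 - h))) :
    (∃ a : ℤ, (a = c.1 + 12 * L ∨ a = c.1 - 26 * L) ∧ (x0 ≤ a ∧ a + 14 * L ≤ x1) ∧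
      (NoTB h a 0 n F ∨ NoTB h a (y1 - 2 * h) n F)) ∨
    (∃ b : ℤ, (b = c.2 + 12 * L ∨ b = c.2 - 26 * L) ∧ (0 ≤ b ∧ b + 14 * L ≤ y1) ∧
      (NoLR h x0 b n F ∨ NoLR h (x1 - 2 * h) b n F)) := by
  have hu' : inR (c.1 - 28 * L) (c.1 + 28 * L) (c.2 - 28 * L) (c.2 + 28 * L) u := by
    unfold inR at hu ⊢
    omega
  obtain ⟨w, hwb, hw, hRw⟩ := first_exit hu' hR hv
  have hw' : (w.1 = c.1 - 28 * L ∨ w.1 = c.1 + 28 * L) ∨
      (w.2 = c.2 - 28 * L ∨ w.2 = c.2 + 28 * L) := by tauto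
  rcases hw' with hw' | hw'
  · left
    exact horiz hG hFG hh hhL hn (by omega) hu hwb hw' hRw
      (fun w' h1 h2 h3 => hin w' h1 h2 (by simpa only [zero_add] using h3))
  · right
    have hT := horiz (G := tps.φ '' G) (F := tps.mp F) (x0 := 0) (x1 := y1) (y0 := x0) (y1 := x1)
      (c := (c.2, c.1)) (u := (u.2, u.1)) (w := (w.2, w.1)) (L := L) (h := h) (n := n)
      (tps_mem_RE hG) (by
        rw [LSym.coe_mp]
        exact Set.image_mono hFG) hh hhL hn (by omega) (by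
          unfold inR at hu ⊢
          simp only
          exact ⟨hu.2, hu.1⟩) (by
          unfold inR at hwb ⊢
          simp only
          exact ⟨hwb.2, hwb.1⟩) hw' (by
          have h1 := tps.reach hRw
          rw [Set.image_inter tps.φ.injective, ← LSym.coe_mp tps (RE _ _ _ _), tps_RE] at h1
          exact h1) (by
          intro w' h1 h2 h3
          have h4 := tps.reach h1
          rw [tps_image_image] at h4
          have h5 : Reach G u (w'.2, w'.1) := h4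
          refine hin _ h5 ?_ ?_
          · unfold inR at h2 ⊢
            simp only at h2 ⊢
            exact ⟨h2.2, h2.1⟩
          · simp only
            exact ⟨h3.2, by simpa only [zero_add] using h3.1⟩)
    obtain ⟨b, hb1, hb2, hb3⟩ := hT
    refine ⟨b, hb1, hb2, ?_⟩
    rcases hb3 with hb3 | hb3
    · exact Or.inl (NoLR_of hb3)
    · exact Or.inr (NoLR_of hb3)

end Pool.Agent.H389R2.CL
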