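import Pool.Agent.H389R2.CL.Model

set_option autoImplicit false
set_option maxHeartbeats 1000000
set_option linter.unusedSimpArgs false

namespace Pool.Agent.H389R2.CL

open H974 H934E Pool.Agent.H160R2.CV MeasureTheory TopologicalSpace Filter Topology Metric Set
open Pool.Agent.H389R2.Dim Pool.Agent.H389R2.CD
open scoped ENNReal NNReal

/-- None of `n` consecutive squares of a horizontal strip is crossed vertically. -/
def NoTB (h a c : ℤ) (n : ℕ) (F : Finset Edg) : Prop :=
  ∀ k : ℕ, k < n → ¬ TBc (a + k * (2 * h + 1)) (a + k * (2 * h + 1) + 2 * h) c (c + 2 * h) F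

/-- None of `n` consecutive squares of a vertical strip is crossed horizontally. -/
def NoLR (h a c : ℤ) (n : ℕ) (F : Finset Edg) : Prop :=
  ∀ k : ℕ, k < n → ¬ LRc a (a + 2 * h) (c + k * (2 * h + 1)) (c + k * (2 * h + 1) + 2 * h) F

/-- None of `n` independent events of probability at least `p`. -/
theorem blocks_pr_none {p : ℝ} (hp1 : p ≤ 1) (V : ℕ → Finset Edg) (A : ℕ → Finset Edg → Prop)
    (loc : ∀ j F, A j F ↔ A j (F ∩ V j)) (one : ∀ j, p ≤ Pr P (V j) (A j)) {S : Finset Edg}
    (n : ℕ) (hV : ∀ j < n, V j ⊆ S) (hd : ∀ i j, i < j → j < n → Disjoint (V i) (V j)) :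
    Pr P S (fun F => ∀ j < n, ¬ A j F) ≤ (1 - p) ^ n := by
  have one' : ∀ j, Pr P (V j) (fun F => ¬ A j F) ≤ 1 - p := by
    intro j
    rw [Pr_not]
    linarith [one j]
  induction n with
  | zero =>
    rw [pow_zero]
    exact Pr_le_one w_ok _ _
  | succ n ih =>
    have ih' := ih (fun j hj => hV j (by omega)) (fun i j hij hj => hd i j hij (by omega))
    have e : Pr P S (fun F => ∀ j < n + 1, ¬ A j F)
        = Pr P S (fun F => (∀ j < n, ¬ A j F) ∧ ¬ A n F) := by
      apply Pr_congr
      intro F _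
      constructor
      · intro h
        exact ⟨fun j hj => h j (by omega), h n (by omega)⟩
      · rintro ⟨h1, h2⟩ j hj
        rcases Nat.lt_succ_iff_lt_or_eq.mp hj with h | h
        · exact h1 j h
        · rw [h]; exact h2
    rw [e, Pr_indep (S := (Finset.range n).biUnion V) (T := V n), pow_succ]
    · have e2 : Pr P S (fun F => ¬ A n F) = Pr P (V n) (fun F => ¬ A n F) :=
        Pr_local (hV n (by omega)) (fun F _ => not_congr (loc n F))
      rw [e2]
      exact mul_le_mul ih' (one' n) (Pr_nonneg w_ok _ _) (pow_nonneg (by linarith) _)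
    · intro e he
      rw [Finset.mem_biUnion] at he
      obtain ⟨j, hj, he⟩ := he
      exact hV j (by have := Finset.mem_range.mp hj; omega) he
    · exact hV n (by omega)
    · rw [Finset.disjoint_biUnion_left]
      intro j hj
      exact hd j n (Finset.mem_range.mp hj) (by omega)
    · intro F _
      have : ∀ j < n, (A j F ↔ A j (F ∩ (Finset.range n).biUnion V)) := by
        intro j hj
        rw [loc, loc j (F ∩ (Finset.range n).biUnion V)]
        have : F ∩ (Finset.range n).biUnion V ∩ V j = F ∩ V j := by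
          rw [Finset.inter_assoc]
          congr 1
          rw [Finset.inter_eq_right]
          exact Finset.subset_biUnion_of_mem V (Finset.mem_range.mpr hj)
        rw [this]
      constructor
      · intro h j hj h2
        exact h j hj ((this j hj).mpr h2)
      · intro h j hj h2
        exact h j hj ((this j hj).mp h2)
    · intro F _
      exact not_congr (loc n F)

theorem pr_NoTB {h : ℤ} (hh : 1 ≤ h) (a c : ℤ) (n : ℕ) {S : Finset Edg}
    (hS : RE a (a + n * (2 * h + 1)) c (c + 2 * h) ⊆ S) :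
    Pr P S (NoTB h a c n) ≤ (1 - (1 / 2 : ℝ) ^ 47) ^ n := by
  refine blocks_pr_none (by norm_num)
    (fun k => RE (a + k * (2 * h + 1)) (a + k * (2 * h + 1) + 2 * h) c (c + 2 * h))
    (fun k F => TBc (a + k * (2 * h + 1)) (a + k * (2 * h + 1) + 2 * h) c (c + 2 * h) F)
    (fun j F => TBc_local TBE_subset_RE) (fun j => ?_) n (fun j hj => ?_) (fun i j hij hj => ?_)
  · exact pr_tb (n := h) (by omega) (by omega) (by omega) (by omega) TBE_subset_RE
  · refine (RE_subset ?_ ?_ le_rfl le_rfl).trans hS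
    · have : 0 ≤ (j : ℤ) * (2 * h + 1) := by positivity
      linarith
    · have h1 : ((j : ℤ) + 1) ≤ n := by exact_mod_cast hj
      have h2 : ((j : ℤ) + 1) * (2 * h + 1) ≤ n * (2 * h + 1) :=
        mul_le_mul_of_nonneg_right h1 (by omega)
      linarith
  · have h1 : ((i : ℤ) + 1) ≤ j := by exact_mod_cast hij
    have h2 : ((i : ℤ) + 1) * (2 * h + 1) ≤ j * (2 * h + 1) :=
      mul_le_mul_of_nonneg_right h1 (by omega)
    rw [Finset.disjoint_left]
    rintro ⟨x, y, _ | _⟩ k1 k2
    · simp only [mem_RE_false] at k1 k2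
      linarith [k1.2.1, k2.1]
    · simp only [mem_RE_true] at k1 k2
      linarith [k1.2.1, k2.1]

theorem pr_NoLR {h : ℤ} (hh : 1 ≤ h) (a c : ℤ) (n : ℕ) {S : Finset Edg}
    (hS : RE a (a + 2 * h) c (c + n * (2 * h + 1)) ⊆ S) :
    Pr P S (NoLR h a c n) ≤ (1 - (1 / 2 : ℝ) ^ 47) ^ n := by
  refine blocks_pr_none (by norm_num)
    (fun k => RE a (a + 2 * h) (c + k * (2 * h + 1)) (c + k * (2 * h + 1) + 2 * h))
    (fun k F => LRc a (a + 2 * h) (c + k * (2 * h + 1)) (c + k * (2 * h + 1) + 2 * h) F)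
    (fun j F => LRc_local LRE_subset_RE) (fun j => ?_) n (fun j hj => ?_) (fun i j hij hj => ?_)
  · exact pr_lr (n := h) (by omega) (by omega) (by omega) (by omega) LRE_subset_RE
  · refine (RE_subset le_rfl le_rfl ?_ ?_).trans hS
    · have : 0 ≤ (j : ℤ) * (2 * h + 1) := by positivity
      linarith
    · have h1 : ((j : ℤ) + 1) ≤ n := by exact_mod_cast hj
      have h2 : ((j : ℤ) + 1) * (2 * h + 1) ≤ n * (2 * h + 1) :=
        mul_le_mul_of_nonneg_right h1 (by omega)
      linarith
  · have h1 : ((i : ℤ) + 1) ≤ j := by exact_mod_cast hij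
    have h2 : ((i : ℤ) + 1) * (2 * h + 1) ≤ j * (2 * h + 1) :=
      mul_le_mul_of_nonneg_right h1 (by omega)
    rw [Finset.disjoint_left]
    rintro ⟨x, y, _ | _⟩ k1 k2
    · simp only [mem_RE_false] at k1 k2
      linarith [k1.2.2.2, k2.2.2.1]
    · simp only [mem_RE_true] at k1 k2
      linarith [k1.2.2.2, k2.2.2.1]

end Pool.Agent.H389R2.CL
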