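import Pool.Agent.H389R2.CL.BdryDet

set_option autoImplicit false
set_option maxHeartbeats 1000000
set_option linter.unusedSimpArgs false

namespace Pool.Agent.H389R2.CL

open H974 H934E Pool.Agent.H160R2.CV MeasureTheory TopologicalSpace Filter Topology Metric Set
open Pool.Agent.H389R2.Dim Pool.Agent.H389R2.CD
open scoped ENNReal NNReal

/-- The closed inner rectangle of the points at distance at least `η` from the sides. -/
def inn (R : Rect) (η : ℝ) : Set ℂ :=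
  {w | (-R.A + η ≤ w.re ∧ w.re ≤ R.B - η) ∧ (η ≤ w.im ∧ w.im ≤ R.H - η)}

/-- `K` crosses an annulus and avoids there the inner rectangle. -/
def Uz (R : Rect) (z : ℂ) (s η : ℝ) : Set (NonemptyCompacts ℂ) :=
  {K | ((K : Set ℂ) ∩ sq z s).Nonempty ∧ ((K : Set ℂ) ∩ (csq z (3 * s))ᶜ).Nonempty ∧
    (K : Set ℂ) ⊆ (csq z (3 * s) ∩ inn R η)ᶜ}

theorem db_false (S : Finset Edg) : Pr P S (fun _ => False) = 0 := by
  have h := Pr_not (p := P) S (fun _ => True)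
  rw [Pr_true S (fun F _ => trivial), sub_self] at h
  rw [← h]
  exact Pr_congr (fun F _ => by simp)

theorem db_cond (S : Finset Edg) {C : Prop} {E : Finset Edg → Prop} {q : ℝ} (hq : 0 ≤ q)
    (h : C → Pr P S E ≤ q) : Pr P S (fun F => C ∧ E F) ≤ q := by
  by_cases hC : C
  · exact (Pr_mono w_ok (fun F _ hF => hF.2)).trans (h hC)
  · refine (Pr_mono w_ok (B := fun _ => False) (fun F _ hF => hC hF.1)).trans ?_
    rw [db_false]
    exact hq

theorem db_eight {S : Finset Edg} {x0 x1 y1 L h a1 a2 b1 b2 : ℤ} {n : ℕ}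
    (hS : S = RE x0 x1 0 y1) (hh : 1 ≤ h) (hhL : 4 * h ≤ L)
    (hn : (n : ℤ) * (2 * h + 1) ≤ 14 * L) (hx : 60 * L ≤ x1 - x0) (hy : 60 * L ≤ y1) :
    Pr P S (fun F => (∃ a : ℤ, (a = a1 ∨ a = a2) ∧ (x0 ≤ a ∧ a + 14 * L ≤ x1) ∧
      (NoTB h a 0 n F ∨ NoTB h a (y1 - 2 * h) n F)) ∨
    (∃ b : ℤ, (b = b1 ∨ b = b2) ∧ (0 ≤ b ∧ b + 14 * L ≤ y1) ∧
      (NoLR h x0 b n F ∨ NoLR h (x1 - 2 * h) b n F))) ≤ 8 * (1 - (1 / 2 : ℝ) ^ 47) ^ n := by
  set q : ℝ := (1 - (1 / 2 : ℝ) ^ 47) ^ n with hq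
  have hq0 : 0 ≤ q := by
    rw [hq]
    apply pow_nonneg
    norm_num
  have hTB : ∀ a : ℤ, Pr P S (fun F => (x0 ≤ a ∧ a + 14 * L ≤ x1) ∧
      (NoTB h a 0 n F ∨ NoTB h a (y1 - 2 * h) n F)) ≤ 2 * q := by
    intro a
    refine db_cond S (by linarith) ?_
    rintro ⟨h1, h2⟩
    have e1 : Pr P S (NoTB h a 0 n) ≤ q := by
      apply pr_NoTB hh
      rw [hS]
      exact RE_subset (by omega) (by omega) (by omega) (by omega)
    have e2 : Pr P S (NoTB h a (y1 - 2 * h) n) ≤ q := by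
      apply pr_NoTB hh
      rw [hS]
      exact RE_subset (by omega) (by omega) (by omega) (by omega)
    have e3 := Pr_or_le w_ok S (NoTB h a 0 n) (NoTB h a (y1 - 2 * h) n)
    linarith
  have hLR : ∀ b : ℤ, Pr P S (fun F => (0 ≤ b ∧ b + 14 * L ≤ y1) ∧
      (NoLR h x0 b n F ∨ NoLR h (x1 - 2 * h) b n F)) ≤ 2 * q := by
    intro b
    refine db_cond S (by linarith) ?_
    rintro ⟨h1, h2⟩
    have e1 : Pr P S (NoLR h x0 b n) ≤ q := by
      apply pr_NoLR hh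
      rw [hS]
      exact RE_subset (by omega) (by omega) (by omega) (by omega)
    have e2 : Pr P S (NoLR h (x1 - 2 * h) b n) ≤ q := by
      apply pr_NoLR hh
      rw [hS]
      exact RE_subset (by omega) (by omega) (by omega) (by omega)
    have e3 := Pr_or_le w_ok S (NoLR h x0 b n) (NoLR h (x1 - 2 * h) b n)
    linarith
  refine (Pr_mono w_ok (B := fun F =>
    (((x0 ≤ a1 ∧ a1 + 14 * L ≤ x1) ∧ (NoTB h a1 0 n F ∨ NoTB h a1 (y1 - 2 * h) n F)) ∨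
    ((x0 ≤ a2 ∧ a2 + 14 * L ≤ x1) ∧ (NoTB h a2 0 n F ∨ NoTB h a2 (y1 - 2 * h) n F))) ∨
    (((0 ≤ b1 ∧ b1 + 14 * L ≤ y1) ∧ (NoLR h x0 b1 n F ∨ NoLR h (x1 - 2 * h) b1 n F)) ∨
    ((0 ≤ b2 ∧ b2 + 14 * L ≤ y1) ∧ (NoLR h x0 b2 n F ∨ NoLR h (x1 - 2 * h) b2 n F))))
    ?_).trans ?_
  · rintro F _ (⟨a, rfl | rfl, h1, h2⟩ | ⟨b, rfl | rfl, h1, h2⟩)
    · exact Or.inl (Or.inl ⟨h1, h2⟩)
    · exact Or.inl (Or.inr ⟨h1, h2⟩)
    · exact Or.inr (Or.inl ⟨h1, h2⟩)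
    · exact Or.inr (Or.inr ⟨h1, h2⟩)
  · refine (Pr_or_le w_ok S _ _).trans ?_
    have e1 := Pr_or_le w_ok S
      (fun F => (x0 ≤ a1 ∧ a1 + 14 * L ≤ x1) ∧ (NoTB h a1 0 n F ∨ NoTB h a1 (y1 - 2 * h) n F))
      (fun F => (x0 ≤ a2 ∧ a2 + 14 * L ≤ x1) ∧ (NoTB h a2 0 n F ∨ NoTB h a2 (y1 - 2 * h) n F))
    have e2 := Pr_or_le w_ok S
      (fun F => (0 ≤ b1 ∧ b1 + 14 * L ≤ y1) ∧ (NoLR h x0 b1 n F ∨ NoLR h (x1 - 2 * h) b1 n F))
      (fun F => (0 ≤ b2 ∧ b2 + 14 * L ≤ y1) ∧ (NoLR h x0 b2 n F ∨ NoLR h (x1 - 2 * h) b2 n F))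
    have := hTB a1
    have := hTB a2
    have := hLR b1
    have := hLR b2
    linarith

theorem db_wired (R : Rect) {δ : ℝ} (hδ : 0 < δ) (hx : R.x0 δ ≤ R.x1 δ) (hy : 0 ≤ R.y1 δ)
    {e : Edg} (he : e ∈ R.wired δ) : e ∈ RE (R.x0 δ) (R.x1 δ) 0 (R.y1 δ) := by
  have h1 := R.x1_nonneg hδ
  have h2 : R.tc δ ≤ R.x1 δ := by
    unfold Rect.tc Rect.x1
    have h3 : R.t / δ < R.B / δ := by
      rw [div_lt_div_iff_of_pos_right hδ]
      exact R.ht2
    have h4 : (⌊R.t / δ⌋ : ℝ) ≤ R.t / δ := Int.floor_le _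
    have h5 : R.B / δ ≤ (⌈R.B / δ⌉ : ℝ) := Int.le_ceil _
    have h6 : (⌊R.t / δ⌋ : ℝ) < (⌈R.B / δ⌉ : ℝ) := by linarith
    have h7 : ⌊R.t / δ⌋ < ⌈R.B / δ⌉ := by exact_mod_cast h6
    omega
  obtain ⟨x, y, b⟩ := e
  unfold Rect.wired at he
  simp only [Set.mem_ofPred_eq] at he
  rcases he with ⟨rfl, h3, h4, h5⟩ | ⟨rfl, h3, h4, h5⟩ | ⟨rfl, h3, h4, h5⟩
  · rw [mem_RE_true]
    omega
  · rw [mem_RE_false]
    omega
  · rw [mem_RE_true]
    omega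

/-- **Clusters do not follow the boundary.** -/
theorem disc_bdry (R : Rect) (z : ℂ) {s : ℝ} (hs : 0 < s) (hsm : 32 * s ≤ min (R.A + R.B) R.H)
    {ε : ℝ} (hε : 0 < ε) : ∃ η : ℝ, 0 < η ∧ ∃ δ0 : ℝ, 0 < δ0 ∧ ∀ δ : ℝ, 0 < δ → δ < δ0 →
      Pr P (R.edges δ) (fun F => ∃ v : Vtx, clAt R δ F v ∈ Uz R z s η) ≤ ε := by
  obtain ⟨n, hn⟩ := exists_pow_lt_of_lt_one (show 0 < ε / 8 by positivity)
    (show (1 - (1 / 2 : ℝ) ^ 47) < 1 by norm_num)
  have hn1 : (0 : ℝ) < (n : ℝ) + 1 := by positivity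
  refine ⟨s / (100 * (n + 1)), by positivity, s / (1000 * (n + 1)), by positivity, ?_⟩
  intro δ hδ hδ0
  -- scaling
  obtain ⟨T, hT⟩ : ∃ T : ℝ, s = δ * T := ⟨s / δ, by field_simp⟩
  obtain ⟨X, hX⟩ : ∃ X : ℝ, z.re = δ * X := ⟨z.re / δ, by field_simp⟩
  obtain ⟨Y, hY⟩ : ∃ Y : ℝ, z.im = δ * Y := ⟨z.im / δ, by field_simp⟩
  have hTn : 1000 * ((n : ℝ) + 1) < T := by
    rw [lt_div_iff₀ (by positivity), hT] at hδ0
    nlinarith
  obtain ⟨E, hE⟩ : ∃ E : ℝ, E = T / (100 * (n + 1)) := ⟨_, rfl⟩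
  have hEη : s / (100 * (n + 1)) = δ * E := by
    rw [hT, hE, mul_div_assoc]
  have hE1 : E * (100 * (n + 1)) = T := by
    rw [hE]
    field_simp
  rw [hEη]
  have hT0 : 1000 < T := by nlinarith [(Nat.cast_nonneg n : (0 : ℝ) ≤ n)]
  have hE0 : 0 < E := by
    rw [hE]
    positivity
  have hn0 : (0 : ℝ) ≤ n := Nat.cast_nonneg n
  have hE2 : 100 * E + 100 * (n * E) = T := by linarith
  have hnE : 0 ≤ n * E := mul_nonneg hn0 hE0.le
  -- the integers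
  obtain ⟨L, hL1, hL2⟩ : ∃ L : ℤ, T / 10 + 1 < L ∧ (L : ℝ) ≤ T / 10 + 2 := by
    refine ⟨⌊T / 10⌋ + 2, ?_, ?_⟩
    · push_cast
      have := Int.lt_floor_add_one (T / 10)
      linarith
    · push_cast
      have := Int.floor_le (T / 10)
      linarith
  obtain ⟨h, hh1, hh2⟩ : ∃ h : ℤ, E + 1 ≤ h ∧ (h : ℝ) < E + 2 := by
    refine ⟨⌈E⌉ + 1, ?_, ?_⟩
    · push_cast
      have := Int.le_ceil E
      linarith
    · push_cast
      have := Int.ceil_lt_add_one E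
      linarith
  obtain ⟨c1, hc1, hc1'⟩ : ∃ c1 : ℤ, X - 1 < c1 ∧ (c1 : ℝ) ≤ X :=
    ⟨⌊X⌋, by have := Int.lt_floor_add_one X; linarith, Int.floor_le X⟩
  obtain ⟨c2, hc2, hc2'⟩ : ∃ c2 : ℤ, Y - 2 < c2 ∧ (c2 : ℝ) ≤ Y - 1 := by
    refine ⟨⌊Y⌋ - 1, ?_, ?_⟩
    · push_cast
      have := Int.lt_floor_add_one Y
      linarith
    · push_cast
      have := Int.floor_le Y
      linarith
  -- the domain
  have hmin := le_min_iff.1 hsm
  have hx0a : -(R.A / δ) < (R.x0 δ : ℝ) := by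
    unfold Rect.x0
    push_cast
    exact Int.lt_floor_add_one _
  have hx0b : (R.x0 δ : ℝ) ≤ -(R.A / δ) + 1 := by
    unfold Rect.x0
    push_cast
    have := Int.floor_le (-(R.A / δ))
    linarith
  have hx1a : (R.x1 δ : ℝ) < R.B / δ := by
    unfold Rect.x1
    push_cast
    have := Int.ceil_lt_add_one (R.B / δ)
    linarith
  have hx1b : R.B / δ - 1 ≤ (R.x1 δ : ℝ) := by
    unfold Rect.x1
    push_cast
    have := Int.le_ceil (R.B / δ)
    linarith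
  have hy1a : (R.y1 δ : ℝ) + 1 < R.H / δ := by
    unfold Rect.y1
    push_cast
    have := Int.ceil_lt_add_one (R.H / δ)
    linarith
  have hy1b : R.H / δ - 2 ≤ (R.y1 δ : ℝ) := by
    unfold Rect.y1
    push_cast
    have := Int.le_ceil (R.H / δ)
    linarith
  obtain ⟨Aδ, hAδ⟩ : ∃ Aδ : ℝ, Aδ = R.A / δ := ⟨_, rfl⟩
  obtain ⟨Bδ, hBδ⟩ : ∃ Bδ : ℝ, Bδ = R.B / δ := ⟨_, rfl⟩
  obtain ⟨Hδ, hHδ⟩ : ∃ Hδ : ℝ, Hδ = R.H / δ := ⟨_, rfl⟩
  have hA : R.A = δ * Aδ := by rw [hAδ]; field_simp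
  have hB : R.B = δ * Bδ := by rw [hBδ]; field_simp
  have hH : R.H = δ * Hδ := by rw [hHδ]; field_simp
  rw [← hAδ] at hx0a hx0b
  rw [← hBδ] at hx1a hx1b
  rw [← hHδ] at hy1a hy1b
  have hAB : 32 * T ≤ Aδ + Bδ := by
    have h1 : δ * (32 * T) ≤ δ * (Aδ + Bδ) := by
      have := hmin.1
      rw [hA, hB, hT] at this
      linarith
    exact le_of_mul_le_mul_left h1 hδ
  have hHT : 32 * T ≤ Hδ := by
    have h1 : δ * (32 * T) ≤ δ * Hδ := by
      have := hmin.2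
      rw [hH, hT] at this
      linarith
    exact le_of_mul_le_mul_left h1 hδ
  have k1 : 1 ≤ h := by
    have : (1 : ℝ) ≤ h := by linarith
    exact_mod_cast this
  have k2 : 4 * h ≤ L := by
    have : (4 : ℝ) * h ≤ L := by linarith
    exact_mod_cast this
  have k3 : (n : ℤ) * (2 * h + 1) ≤ 14 * L := by
    have h1 : (n : ℝ) * (2 * h + 1) ≤ n * (2 * (E + 2) + 1) :=
      mul_le_mul_of_nonneg_left (by linarith) hn0
    have h2 : (n : ℝ) * (2 * (E + 2) + 1) = 2 * (n * E) + 5 * n := by ring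
    have : (n : ℝ) * (2 * h + 1) ≤ 14 * L := by linarith
    exact_mod_cast this
  have k4 : 60 * L ≤ R.x1 δ - R.x0 δ := by
    have : (60 : ℝ) * L ≤ R.x1 δ - R.x0 δ := by linarith
    exact_mod_cast this
  have k5 : 60 * L ≤ R.y1 δ := by
    have : (60 : ℝ) * L ≤ R.y1 δ := by linarith
    exact_mod_cast this
  have hmain := db_eight (a1 := c1 + 12 * L) (a2 := c1 - 26 * L) (b1 := c2 + 12 * L)
    (b2 := c2 - 26 * L) (R.edges_eq δ) k1 k2 k3 k4 k5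
  refine le_trans (Pr_mono w_ok ?_) (hmain.trans (by linarith))
  rintro F hFS ⟨v0, ⟨p, hp, hpz⟩, ⟨p', hp', hpz'⟩, hK⟩
  obtain ⟨u, hu, hu1, hu2⟩ := csetAt_near R hδ.le (show p ∈ csetAt R δ F v0 from hp)
  obtain ⟨v, hv, hv1, hv2⟩ := csetAt_near R hδ.le (show p' ∈ csetAt R δ F v0 from hp')
  have hFS' : F ⊆ RE (R.x0 δ) (R.x1 δ) 0 (R.y1 δ) := by
    rw [← R.edges_eq δ]
    exact hFS
  have hu0 : Reach (↑F ∪ R.wired δ) v0 u := hu
  have hv0 : Reach (↑F ∪ R.wired δ) v0 v := hv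
  refine bdry_det (G := (↑F ∪ R.wired δ)) (c := (c1, c2)) (u := u) (v := v) ?_
    Set.subset_union_left k1 k2 k3 k4 k5 ?_ ?_ (hu0.symm.trans hv0) ?_
  · rintro e (he | he)
    · exact hFS' he
    · exact db_wired R hδ (by omega) (by omega) he
  · -- `u` is in the small box
    obtain ⟨hpz1, hpz2⟩ := hpz
    rw [abs_lt] at hpz1 hpz2
    rw [abs_le] at hu1 hu2
    have e1 : (pt δ u).re = δ * u.1 := rfl
    have e2 : (pt δ u).im = δ * (u.2 + 1) := rfl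
    rw [e1] at hu1
    rw [e2] at hu2
    rw [hX, hT] at hpz1
    rw [hY, hT] at hpz2
    have f1 : (u.1 : ℝ) < X + T + 1 := by
      apply lt_of_mul_lt_mul_left _ hδ.le
      linarith
    have f2 : X - T - 1 < (u.1 : ℝ) := by
      apply lt_of_mul_lt_mul_left _ hδ.le
      linarith
    have f3 : (u.2 : ℝ) + 1 < Y + T + 1 := by
      apply lt_of_mul_lt_mul_left _ hδ.le
      linarith
    have f4 : Y - T - 1 < (u.2 : ℝ) + 1 := by
      apply lt_of_mul_lt_mul_left _ hδ.le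
      linarith
    refine ⟨⟨?_, ?_⟩, ?_, ?_⟩
    · have : (c1 : ℝ) - 10 * L ≤ u.1 := by linarith
      exact_mod_cast this
    · have : (u.1 : ℝ) ≤ c1 + 10 * L := by linarith
      exact_mod_cast this
    · have : (c2 : ℝ) - 10 * L ≤ u.2 := by linarith
      exact_mod_cast this
    · have : (u.2 : ℝ) ≤ c2 + 10 * L := by linarith
      exact_mod_cast this
  · -- `v` is far away
    rw [abs_le] at hv1 hv2
    have e1 : (pt δ v).re = δ * v.1 := rfl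
    have e2 : (pt δ v).im = δ * (v.2 + 1) := rfl
    rw [e1] at hv1
    rw [e2] at hv2
    have hfar : 3 * s < |p'.re - z.re| ∨ 3 * s < |p'.im - z.im| := by
      by_contra hcon
      rw [not_or, not_lt, not_lt] at hcon
      exact hpz' hcon
    rw [hX, hY, hT, lt_abs, lt_abs] at hfar
    rcases hfar with (hf | hf) | (hf | hf)
    · right; left
      have f1 : X + 3 * T - 1 < (v.1 : ℝ) := by
        apply lt_of_mul_lt_mul_left _ hδ.le
        linarith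
      have : (c1 : ℝ) + 28 * L ≤ v.1 := by linarith
      exact_mod_cast this
    · left
      have f1 : (v.1 : ℝ) < X - 3 * T + 1 := by
        apply lt_of_mul_lt_mul_left _ hδ.le
        linarith
      have : (v.1 : ℝ) ≤ c1 - 28 * L := by linarith
      exact_mod_cast this
    · right; right; right
      have f1 : Y + 3 * T - 1 < (v.2 : ℝ) + 1 := by
        apply lt_of_mul_lt_mul_left _ hδ.le
        linarith
      have : (c2 : ℝ) + 28 * L ≤ v.2 := by linarith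
      exact_mod_cast this
    · right; right; left
      have f1 : (v.2 : ℝ) + 1 < Y - 3 * T + 1 := by
        apply lt_of_mul_lt_mul_left _ hδ.le
        linarith
      have : (v.2 : ℝ) ≤ c2 - 28 * L := by linarith
      exact_mod_cast this
  · -- the cluster avoids the inner rectangle
    rintro w hw ⟨⟨g1, g2⟩, g3, g4⟩ ⟨⟨m1, m2⟩, m3, m4⟩
    have hwK : pt δ w ∈ (clAt R δ F v0 : Set ℂ) := Or.inl ⟨w, hu0.trans hw, rfl⟩
    have hbad := hK hwK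
    apply hbad
    have e1 : (pt δ w).re = δ * w.1 := rfl
    have e2 : (pt δ w).im = δ * (w.2 + 1) := rfl
    have g1' : (c1 : ℝ) - 28 * L ≤ w.1 := by exact_mod_cast g1
    have g2' : (w.1 : ℝ) ≤ c1 + 28 * L := by exact_mod_cast g2
    have g3' : (c2 : ℝ) - 28 * L ≤ w.2 := by exact_mod_cast g3
    have g4' : (w.2 : ℝ) ≤ c2 + 28 * L := by exact_mod_cast g4
    have m1' : (R.x0 δ : ℝ) + h ≤ w.1 := by exact_mod_cast m1
    have m2' : (w.1 : ℝ) ≤ R.x1 δ - h := by exact_mod_cast m2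
    have m3' : (h : ℝ) ≤ w.2 := by exact_mod_cast m3
    have m4' : (w.2 : ℝ) ≤ R.y1 δ - h := by exact_mod_cast m4
    refine ⟨⟨?_, ?_⟩, ⟨?_, ?_⟩, ?_, ?_⟩
    · rw [e1, hX, hT, ← mul_sub, abs_mul, abs_of_pos hδ]
      have : |(w.1 : ℝ) - X| ≤ 3 * T := by
        rw [abs_le]
        constructor <;> linarith
      calc δ * |(w.1 : ℝ) - X| ≤ δ * (3 * T) := mul_le_mul_of_nonneg_left this hδ.le
        _ = 3 * (δ * T) := by ring
    · rw [e2, hY, hT, ← mul_sub, abs_mul, abs_of_pos hδ]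
      have : |(w.2 : ℝ) + 1 - Y| ≤ 3 * T := by
        rw [abs_le]
        constructor <;> linarith
      calc δ * |(w.2 : ℝ) + 1 - Y| ≤ δ * (3 * T) := mul_le_mul_of_nonneg_left this hδ.le
        _ = 3 * (δ * T) := by ring
    · rw [e1, hA]
      have := mul_le_mul_of_nonneg_left (show -Aδ + E ≤ (w.1 : ℝ) by linarith) hδ.le
      linarith
    · rw [e1, hB]
      have := mul_le_mul_of_nonneg_left (show (w.1 : ℝ) ≤ Bδ - E by linarith) hδ.le
      linarith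
    · rw [e2]
      have := mul_le_mul_of_nonneg_left (show E ≤ (w.2 : ℝ) + 1 by linarith) hδ.le
      linarith
    · rw [e2, hH]
      have := mul_le_mul_of_nonneg_left (show (w.2 : ℝ) + 1 ≤ Hδ - E by linarith) hδ.le
      linarith

end Pool.Agent.H389R2.CL
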