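import Pool.Agent.H389R2.CL.AnnG

set_option autoImplicit false
set_option maxHeartbeats 1000000
set_option linter.unusedSimpArgs false

namespace Pool.Agent.H389R2.CL

open H974 H934E Pool.Agent.H160R2.CV MeasureTheory TopologicalSpace Filter Topology Metric Set
open Pool.Agent.H389R2.Dim Pool.Agent.H389R2.CD Pool.Agent.H389R2.LV
open scoped ENNReal NNReal

/-- `K` meets the open square of radius `s` around `z` and the complement of the closed square of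
radius `3 s`. -/
def Vz (z : ℂ) (s : ℝ) : Set (NonemptyCompacts ℂ) :=
  {K | ((K : Set ℂ) ∩ sq z s).Nonempty ∧ ((K : Set ℂ) ∩ (csq z (3 * s))ᶜ).Nonempty}

theorem dL_abs {δ a b c : ℝ} (hδ : 0 < δ) : |δ * a - δ * b| ≤ δ * c ↔ |a - b| ≤ c := by
  rw [← mul_sub, abs_mul, abs_of_pos hδ]
  exact mul_le_mul_iff_right₀ hδ

/-- The geometry of the discretised square. -/
structure Geo (R : Rect) (z : ℂ) (s δ X Y σ : ℝ) (c : Vtx) (N : ℤ) : Prop where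
  hX : z.re = δ * X
  hY : z.im = δ * Y
  hs : s = δ * σ
  hσ : 600 ≤ σ
  a1 : -(R.A / δ) < X - 3 * σ
  a2 : X + 3 * σ < R.B / δ
  a3 : 3 * σ < Y
  a4 : Y + 3 * σ < R.H / δ
  c1 : (c.1 : ℝ) ≤ X
  c2 : X < (c.1 : ℝ) + 1
  c3 : (c.2 : ℝ) + 1 ≤ Y
  c4 : Y < (c.2 : ℝ) + 2
  n1 : σ + 64 < 64 * (N : ℝ)
  n2 : 64 * (N : ℝ) ≤ σ + 128

theorem Geo.sub {R : Rect} {z : ℂ} {s δ X Y σ : ℝ} {c : Vtx} {N : ℤ}
    (h : Geo R z s δ X Y σ c N) :
    (R.x0 δ < c.1 - 144 * N ∧ c.1 + 144 * N ≤ R.x1 δ) ∧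
      (0 < c.2 - 144 * N ∧ c.2 + 144 * N < R.y1 δ) := by
  have hx0 : (R.x0 δ : ℝ) ≤ -(R.A / δ) + 1 := by
    unfold Rect.x0
    push_cast
    linarith [Int.floor_le (-(R.A / δ))]
  have hx1 : R.B / δ - 1 ≤ (R.x1 δ : ℝ) := by
    unfold Rect.x1
    push_cast
    linarith [Int.le_ceil (R.B / δ)]
  have hy1 : R.H / δ - 2 ≤ (R.y1 δ : ℝ) := by
    unfold Rect.y1
    push_cast
    linarith [Int.le_ceil (R.H / δ)]
  obtain ⟨_, _, _, hσ, a1, a2, a3, a4, c1, c2, c3, c4, n1, n2⟩ := h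
  refine ⟨⟨?_, ?_⟩, ?_, ?_⟩
  · have : (R.x0 δ : ℝ) < ((c.1 - 144 * N : ℤ) : ℝ) := by push_cast; linarith
    exact_mod_cast this
  · have : ((c.1 + 144 * N : ℤ) : ℝ) ≤ (R.x1 δ : ℝ) := by push_cast; linarith
    exact_mod_cast this
  · have : (0 : ℝ) < ((c.2 - 144 * N : ℤ) : ℝ) := by push_cast; linarith
    exact_mod_cast this
  · have : ((c.2 + 144 * N : ℤ) : ℝ) < (R.y1 δ : ℝ) := by push_cast; linarith
    exact_mod_cast this

/-- Wired edges are outside of the box. -/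
theorem wired_out {R : Rect} {δ : ℝ} {c : Vtx} {m : ℤ} (h1 : R.x0 δ < c.1 - m)
    (h2 : 0 < c.2 - m) (h3 : c.2 + m < R.y1 δ) {e : Edg} (he : e ∈ R.wired δ) :
    e ∉ RE (c.1 - m) (c.1 + m) (c.2 - m) (c.2 + m) := by
  obtain ⟨x, y, b⟩ := e
  intro hE
  unfold Rect.wired at he
  simp only [Set.mem_ofPred_eq] at he
  cases b
  · rw [mem_RE_false] at hE
    rcases he with ⟨h, _⟩ | h | ⟨h, _⟩
    · exact absurd h (by simp)
    · omega
    · exact absurd h (by simp)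
  · rw [mem_RE_true] at hE
    rcases he with h | ⟨h, _⟩ | h
    · omega
    · exact absurd h (by simp)
    · omega

/-- The deterministic part. -/
theorem disc_det {t α E η : ℝ} (hη : 0 < η) {R : Rect} {z : ℂ} {s δ X Y σ : ℝ} {c : Vtx} {N : ℤ}
    (hδ : 0 < δ) (h : Geo R z s δ X Y σ c N) {F : Finset Edg}
    (hgood : ∀ u v : Vtx, (|u.1 - c.1| ≤ 64 * N ∧ |u.2 - c.2| ≤ 64 * N) →
        (128 * N ≤ |v.1 - c.1| ∨ 128 * N ≤ |v.2 - c.2|) →
        Reach (↑F ∩ ↑(RE (c.1 - 144 * N) (c.1 + 144 * N) (c.2 - 144 * N) (c.2 + 144 * N))) u v →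
        ∃ (r : ℕ) (T : Finset Vtx), 1 ≤ r ∧ η * N ≤ r ∧ SG t α E r T ∧
          (∀ x ∈ T, |x.1 - c.1| ≤ 144 * N ∧ |x.2 - c.2| ≤ 144 * N) ∧
          ∀ x ∈ T, Reach (↑F : Set Edg) u x)
    {v : Vtx} (hv : clAt R δ F v ∈ Vz z s) :
    ∃ (r : ℕ) (T : Finset Vtx), 1 ≤ r ∧ η / 64 * s ≤ δ * r ∧ SG t α E r T ∧
      pt δ '' ↑T ⊆ csetAt R δ F v ∩ csq z (3 * s) := by
  obtain ⟨⟨b1, b2⟩, b3, b4⟩ := h.sub
  obtain ⟨hX, hY, hs, hσ, a1, a2, a3, a4, c1, c2, c3, c4, n1, n2⟩ := h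
  obtain ⟨⟨w, hw1, hw2, hw3⟩, w', hw1', hw2'⟩ := hv
  have hw1 : w ∈ csetAt R δ F v := hw1
  have hw1' : w' ∈ csetAt R δ F v := hw1'
  obtain ⟨u, hu, hu1, hu2⟩ := csetAt_near R hδ.le hw1
  obtain ⟨u', hu', hu1', hu2'⟩ := csetAt_near R hδ.le hw1'
  unfold pt at hu1 hu2 hu1' hu2'
  simp only at hu1 hu2 hu1' hu2'
  -- the near vertex
  have g1 : |(u.1 : ℝ) - X| ≤ σ + 1 := by
    rw [← dL_abs hδ]
    rw [abs_le] at hu1 ⊢
    rw [abs_lt] at hw2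
    rw [← hX]
    have : δ * (σ + 1) = s + δ := by rw [hs]; ring
    rw [this]
    constructor <;> linarith
  have g2 : |((u.2 : ℝ) + 1) - Y| ≤ σ + 1 := by
    rw [← dL_abs hδ]
    rw [abs_le] at hu2 ⊢
    rw [abs_lt] at hw3
    rw [← hY]
    have : δ * (σ + 1) = s + δ := by rw [hs]; ring
    rw [this]
    constructor <;> linarith
  -- the far vertex
  have g3 : 3 * σ - 1 ≤ |(u'.1 : ℝ) - X| ∨ 3 * σ - 1 ≤ |((u'.2 : ℝ) + 1) - Y| := by
    by_contra hcon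
    push Not at hcon
    obtain ⟨k1, k2⟩ := hcon
    apply hw2'
    have l1 : |δ * (u'.1 : ℝ) - δ * X| ≤ δ * (3 * σ - 1) := (dL_abs hδ).mpr k1.le
    have l2 : |δ * ((u'.2 : ℝ) + 1) - δ * Y| ≤ δ * (3 * σ - 1) := (dL_abs hδ).mpr k2.le
    have e : δ * (3 * σ - 1) = 3 * s - δ := by rw [hs]; ring
    rw [← hX, e] at l1
    rw [← hY, e] at l2
    rw [abs_le] at l1 l2 hu1' hu2'
    constructor
    · rw [abs_le]; constructor <;> linarith
    · rw [abs_le]; constructor <;> linarith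
  have k1 : |u.1 - c.1| ≤ 64 * N ∧ |u.2 - c.2| ≤ 64 * N := by
    rw [abs_le] at g1 g2
    constructor
    · have : |((u.1 - c.1 : ℤ) : ℝ)| ≤ ((64 * N : ℤ) : ℝ) := by
        push_cast; rw [abs_le]; constructor <;> linarith
      exact_mod_cast this
    · have : |((u.2 - c.2 : ℤ) : ℝ)| ≤ ((64 * N : ℤ) : ℝ) := by
        push_cast; rw [abs_le]; constructor <;> linarith
      exact_mod_cast this
  have k2 : u'.1 ≤ c.1 - 144 * N ∨ c.1 + 144 * N ≤ u'.1 ∨ u'.2 ≤ c.2 - 144 * N ∨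
      c.2 + 144 * N ≤ u'.2 := by
    rcases g3 with g3 | g3
    · rcases le_abs.mp g3 with g | g
      · right; left
        have : ((c.1 + 144 * N : ℤ) : ℝ) ≤ (u'.1 : ℝ) := by push_cast; linarith
        exact_mod_cast this
      · left
        have : (u'.1 : ℝ) ≤ ((c.1 - 144 * N : ℤ) : ℝ) := by push_cast; linarith
        exact_mod_cast this
    · rcases le_abs.mp g3 with g | g
      · right; right; right
        have : ((c.2 + 144 * N : ℤ) : ℝ) ≤ (u'.2 : ℝ) := by push_cast; linarith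
        exact_mod_cast this
      · right; right; left
        have : (u'.2 : ℝ) ≤ ((c.2 - 144 * N : ℤ) : ℝ) := by push_cast; linarith
        exact_mod_cast this
  have hN0 : 1 ≤ N := by
    have : (0 : ℝ) < (N : ℝ) := by linarith
    have : 0 < N := by exact_mod_cast this
    omega
  have hu : Reach (↑F ∪ R.wired δ) v u := hu
  have hu' : Reach (↑F ∪ R.wired δ) v u' := hu'
  have hR : Reach (↑F ∪ R.wired δ) u u' := hu.symm.trans hu'
  obtain ⟨k3, k4⟩ := k1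
  have k3' := abs_le.mp k3
  have k4' := abs_le.mp k4
  obtain ⟨x, m1, m2, m3⟩ := first_exit (a := c.1 - 144 * N) (b := c.1 + 144 * N)
    (c := c.2 - 144 * N) (d := c.2 + 144 * N) (u := u) (v := u') (by unfold inR; omega) hR k2
  have m4 : Reach (↑F ∩ ↑(RE (c.1 - 144 * N) (c.1 + 144 * N) (c.2 - 144 * N)
      (c.2 + 144 * N))) u x := by
    refine m3.mono ?_
    rintro e ⟨he | he, he2⟩
    · exact ⟨he, he2⟩
    · exact absurd (Finset.mem_coe.mp he2) (wired_out b1 b3 b4 he)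
  have m5 : 128 * N ≤ |x.1 - c.1| ∨ 128 * N ≤ |x.2 - c.2| := by
    rw [le_abs, le_abs]
    unfold inR at m1
    omega
  obtain ⟨r, T, hr, hrη, hT1, hT2, hT3⟩ := hgood u x ⟨k3, k4⟩ m5 m4
  refine ⟨r, T, hr, ?_, hT1, ?_⟩
  · have h1 : η * (σ / 64) ≤ r := by
      refine le_trans (mul_le_mul_of_nonneg_left ?_ hη.le) hrη
      linarith
    calc η / 64 * s = δ * (η * (σ / 64)) := by rw [hs]; ring
      _ ≤ δ * r := mul_le_mul_of_nonneg_left h1 hδ.le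
  · rintro _ ⟨y, hy, rfl⟩
    have hy' : y ∈ T := hy
    refine ⟨Or.inl ⟨y, hu.trans ((hT3 y hy').mono Set.subset_union_left), rfl⟩, ?_⟩
    obtain ⟨q1, q2⟩ := hT2 y hy'
    have q3 : |((y.1 - c.1 : ℤ) : ℝ)| ≤ ((144 * N : ℤ) : ℝ) := by exact_mod_cast q1
    have q4 : |((y.2 - c.2 : ℤ) : ℝ)| ≤ ((144 * N : ℤ) : ℝ) := by exact_mod_cast q2
    push_cast at q3 q4
    rw [abs_le] at q3 q4
    have e : 3 * s = δ * (3 * σ) := by rw [hs]; ring
    unfold csq pt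
    simp only [Set.mem_ofPred_eq]
    rw [hX, hY, e, dL_abs hδ, dL_abs hδ, abs_le, abs_le]
    constructor <;> constructor <;> linarith

/-- **Discrete lower estimate.** -/
theorem disc_lower (hAr : ArS) {t : ℝ} (ht1 : 1 ≤ t) (ht : t < 91 / 48) :
    ∃ α E : ℝ, 0 < α ∧ 0 < E ∧ ∀ ε : ℝ, 0 < ε → ∃ η : ℝ, 0 < η ∧
      ∀ (R : Rect) (z : ℂ) (s : ℝ), 0 < s → csq z (3 * s) ⊆ R.D → ∃ δ0 : ℝ, 0 < δ0 ∧
      ∀ δ : ℝ, 0 < δ → δ < δ0 →
      Pr P (R.edges δ) (fun F => ∃ v : Vtx, clAt R δ F v ∈ Vz z s ∧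
        ¬ ∃ (r : ℕ) (T : Finset Vtx), 1 ≤ r ∧ η * s ≤ δ * r ∧ SG t α E r T ∧
          pt δ '' ↑T ⊆ csetAt R δ F v ∩ csq z (3 * s)) ≤ ε := by
  obtain ⟨α, E, hα, hE, hmain⟩ := annulus_good hAr ht1 ht
  refine ⟨α, E, hα, hE, ?_⟩
  intro ε hε
  obtain ⟨η, hη, N0, hN0, hA⟩ := hmain ε hε
  refine ⟨η / 64, by positivity, ?_⟩
  intro R z s hs hsub
  have hN0' : (1 : ℝ) ≤ (N0 : ℝ) := by exact_mod_cast hN0
  refine ⟨s / (600 * N0), by positivity, ?_⟩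
  intro δ hδ hδ2
  -- corners
  have hc : ∀ w : ℂ, |w.re - z.re| ≤ 3 * s → |w.im - z.im| ≤ 3 * s →
      -R.A < w.re ∧ w.re < R.B ∧ 0 < w.im ∧ w.im < R.H := fun w h1 h2 => hsub ⟨h1, h2⟩
  have hc1 := hc ⟨z.re - 3 * s, z.im - 3 * s⟩ (by simp [abs_of_pos hs]) (by simp [abs_of_pos hs])
  have hc2 := hc ⟨z.re + 3 * s, z.im + 3 * s⟩ (by simp [abs_of_pos hs]) (by simp [abs_of_pos hs])
  simp only at hc1 hc2
  have hσ0 : 600 * (N0 : ℝ) < s / δ := by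
    rw [lt_div_iff₀ hδ]
    rw [lt_div_iff₀ (by positivity)] at hδ2
    linarith
  have hσ : 600 ≤ s / δ := by linarith
  set X : ℝ := z.re / δ with hXd
  set Y : ℝ := z.im / δ with hYd
  set σ : ℝ := s / δ with hσd
  set c : Vtx := (⌊X⌋, ⌊Y⌋ - 1) with hcd
  set N : ℤ := ⌊σ / 64⌋ + 2 with hNd
  have hX : z.re = δ * X := by rw [hXd]; field_simp
  have hY : z.im = δ * Y := by rw [hYd]; field_simp
  have hsσ : s = δ * σ := by rw [hσd]; field_simp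
  have f1 : (⌊X⌋ : ℝ) ≤ X := Int.floor_le _
  have f2 : X < (⌊X⌋ : ℝ) + 1 := Int.lt_floor_add_one _
  have f3 : (⌊Y⌋ : ℝ) ≤ Y := Int.floor_le _
  have f4 : Y < (⌊Y⌋ : ℝ) + 1 := Int.lt_floor_add_one _
  have f5 : (⌊σ / 64⌋ : ℝ) ≤ σ / 64 := Int.floor_le _
  have f6 : σ / 64 < (⌊σ / 64⌋ : ℝ) + 1 := Int.lt_floor_add_one _
  have hNR : (N : ℝ) = (⌊σ / 64⌋ : ℝ) + 2 := by rw [hNd]; push_cast; ring
  have hgeo : Geo R z s δ X Y σ c N := by
    refine ⟨hX, hY, hsσ, hσ, ?_, ?_, ?_, ?_, ?_, ?_, ?_, ?_, ?_, ?_⟩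
    · have : -(R.A / δ) = (-R.A) / δ := by ring
      rw [this, div_lt_iff₀ hδ]
      have e : (X - 3 * σ) * δ = δ * X - 3 * (δ * σ) := by ring
      rw [e, ← hX, ← hsσ]
      exact hc1.1
    · rw [lt_div_iff₀ hδ]
      have e : (X + 3 * σ) * δ = δ * X + 3 * (δ * σ) := by ring
      rw [e, ← hX, ← hsσ]
      exact hc2.2.1
    · have h1 := hc1.2.2.1
      rw [hYd, lt_div_iff₀ hδ]
      have e : 3 * σ * δ = 3 * (δ * σ) := by ring
      rw [e, ← hsσ]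
      linarith
    · rw [lt_div_iff₀ hδ]
      have e : (Y + 3 * σ) * δ = δ * Y + 3 * (δ * σ) := by ring
      rw [e, ← hY, ← hsσ]
      exact hc2.2.2.2
    · exact f1
    · exact f2
    · rw [hcd]; simp only; push_cast; linarith
    · rw [hcd]; simp only; push_cast; linarith
    · rw [hNR]; linarith
    · rw [hNR]; linarith
  have hNN : N0 ≤ N := by
    have : (N0 : ℝ) ≤ (N : ℝ) := by rw [hNR]; linarith
    exact_mod_cast this
  have hS : RE (c.1 - 144 * N) (c.1 + 144 * N) (c.2 - 144 * N) (c.2 + 144 * N) ⊆ R.edges δ := by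
    rw [R.edges_eq]
    obtain ⟨⟨b1, b2⟩, b3, b4⟩ := hgeo.sub
    exact RE_subset (by omega) (by omega) (by omega) (by omega)
  refine le_trans (Pr_mono w_ok ?_) (hA N hNN c (R.edges δ) hS)
  rintro F _ ⟨v, hv, hno⟩ hgood
  exact hno (disc_det hη hδ hgeo hgood hv)

end Pool.Agent.H389R2.CL
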