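import Pool.Agent.H389R2.CL.Base
import Pool.Agent.H389R2.CL.DiscL
import Pool.Agent.H389R2.CL.DiscB

/-!
# All clusters: lower bound for the dimension near all points
-/

set_option autoImplicit false
set_option maxHeartbeats 1000000
set_option linter.unusedSimpArgs false

namespace Pool.Agent.H389R2.CL

open H974 H934E Pool.Agent.H160R2.CV MeasureTheory TopologicalSpace Filter Topology Metric Set
open Pool.Agent.H389R2.Dim Pool.Agent.H389R2.CD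
open scoped ENNReal NNReal

theorem isOpen_Vz (z : ℂ) (s : ℝ) : IsOpen (Vz z s) :=
  (NonemptyCompacts.isOpen_inter_nonempty_of_isOpen (isOpen_sq z s)).inter
    (NonemptyCompacts.isOpen_inter_nonempty_of_isOpen (isClosed_csq z (3 * s)).isOpen_compl)

theorem isClosed_inn (R : Rect) (η : ℝ) : IsClosed (inn R η) := by
  unfold inn
  exact ((isClosed_le continuous_const Complex.continuous_re).inter
    (isClosed_le Complex.continuous_re continuous_const)).inter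
    ((isClosed_le continuous_const Complex.continuous_im).inter
    (isClosed_le Complex.continuous_im continuous_const))

theorem isOpen_Uz (R : Rect) (z : ℂ) (s η : ℝ) : IsOpen (Uz R z s η) := by
  have h1 := isOpen_Vz z s
  have h2 : IsOpen {K : NonemptyCompacts ℂ | (K : Set ℂ) ⊆ (csq z (3 * s) ∩ inn R η)ᶜ} :=
    NonemptyCompacts.isOpen_subsets_of_isOpen
      ((isClosed_csq z (3 * s)).inter (isClosed_inn R η)).isOpen_compl
  have e : Uz R z s η = Vz z s ∩ {K : NonemptyCompacts ℂ | (K : Set ℂ) ⊆ (csq z (3 * s) ∩ inn R η)ᶜ} := by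
    ext K
    unfold Uz Vz
    simp only [Set.mem_ofPred_eq, Set.mem_inter_iff, and_assoc]
  rw [e]
  exact h1.inter h2

/-- rational squares around a point -/
theorem exists_rat_sq (w : ℂ) {s : ℝ} (hs : 0 < s) : ∃ a b : ℚ, w ∈ sq (⟨a, b⟩ : ℂ) s := by
  obtain ⟨a, ha, ha'⟩ := exists_rat_btwn (show w.re < w.re + s by linarith)
  obtain ⟨b, hb, hb'⟩ := exists_rat_btwn (show w.im < w.im + s by linarith)
  refine ⟨a, b, ?_, ?_⟩
  · simp only; rw [abs_lt]; constructor <;> linarith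
  · simp only; rw [abs_lt]; constructor <;> linarith

theorem exists_small {K : NonemptyCompacts ℂ} (hK : (K : Set ℂ).Nontrivial) {w : ℂ}
    (hw : w ∈ K) {ε : ℝ} (hε : 0 < ε) : ∃ (a b : ℚ) (n : ℕ), (1 / ((n : ℝ) + 1)) < ε ∧
      K ∈ Vz (⟨a, b⟩ : ℂ) (1 / ((n : ℝ) + 1)) ∧ w ∈ sq (⟨a, b⟩ : ℂ) (1 / ((n : ℝ) + 1)) := by
  obtain ⟨y, hy, hyw⟩ := hK.exists_ne w
  have hpos : 0 < max |y.re - w.re| |y.im - w.im| := by
    rw [lt_max_iff, abs_pos, abs_pos]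
    by_contra hcon
    push Not at hcon
    apply hyw
    apply Complex.ext
    · linarith [hcon.1]
    · linarith [hcon.2]
  obtain ⟨n, hn⟩ := exists_nat_one_div_lt (lt_min hε (show (0 : ℝ) <
    max |y.re - w.re| |y.im - w.im| / 4 by positivity))
  rw [lt_min_iff] at hn
  have hn0 : (0 : ℝ) < 1 / ((n : ℝ) + 1) := by positivity
  obtain ⟨a, b, hab⟩ := exists_rat_sq w hn0
  refine ⟨a, b, n, hn.1, ⟨⟨w, hw, hab⟩, ⟨y, hy, ?_⟩⟩, hab⟩
  rintro ⟨h1, h2⟩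
  obtain ⟨h3, h4⟩ := hab
  rw [abs_le] at h1 h2
  rw [abs_lt] at h3 h4
  have h5 : max |y.re - w.re| |y.im - w.im| ≤ 4 * (1 / ((n : ℝ) + 1)) := by
    apply max_le
    · rw [abs_le]; constructor <;> linarith
    · rw [abs_le]; constructor <;> linarith
  linarith [hn.2]

section

variable (hAr : ArS) (R : Rect) {δ : ℕ → ℝ} (hδ : ∀ i, 0 < δ i) (hlim : Tendsto δ atTop (𝓝 0))
  {μ : ProbabilityMeasure (NonemptyCompacts (NonemptyCompacts ℂ))}
  (hμ : Tendsto (fun i => collLaw R (δ i)) atTop (𝓝 μ))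

include hδ hlim hμ

section

include hAr

theorem coll_lower_t {t : ℝ} (ht1 : 1 ≤ t) (ht : t < 91 / 48) {z : ℂ} {s : ℝ} (hs : 0 < s)
    (hD : csq z (3 * s) ⊆ R.D) : ∀ᵐ 𝒞 : NonemptyCompacts (NonemptyCompacts ℂ)
    ∂(μ : Measure (NonemptyCompacts (NonemptyCompacts ℂ))),
    ∀ K ∈ 𝒞, K ∈ Vz z s → ENNReal.ofReal t ≤ dimH ((K : Set ℂ) ∩ csq z (3 * s)) := by
  obtain ⟨α, E, hα, hE, H⟩ := disc_lower hAr ht1 ht
  have ht0 : 0 < t := by linarith
  refine lower_coll (X := ℂ) ht0 hμ (isClosed_csq z (3 * s)) (isOpen_Vz z s) ?_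
  intro ε hε
  obtain ⟨ε', hε'0, hε'⟩ : ∃ ε' : ℝ, 0 < ε' ∧ ENNReal.ofReal ε' ≤ ε := by
    by_cases htop : ε = ⊤
    · exact ⟨1, one_pos, by rw [htop]; exact le_top⟩
    · exact ⟨ε.toReal, ENNReal.toReal_pos hε.ne' htop, by rw [ENNReal.ofReal_toReal htop]⟩
  obtain ⟨η, hη, H2⟩ := H ε' hε'0
  obtain ⟨δ0, hδ0, H3⟩ := H2 R z s hs hD
  have hs0 : 0 < η * s := by positivity
  refine ⟨2 ^ (-t) / (E / α ^ 2 * (η * s) ^ (-t)), by positivity, ?_⟩
  intro δ' hδ'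
  apply Eventually.frequently
  filter_upwards [hlim.eventually_lt_const (lt_min hδ0 hδ')] with i hi
  rw [lt_min_iff] at hi
  have hopen : IsOpen {K : NonemptyCompacts ℂ | K ∈ Vz z s ∧
      ¬ Good t δ' (2 ^ (-t) / (E / α ^ 2 * (η * s) ^ (-t))) ((K : Set ℂ) ∩ csq z (3 * s))} :=
    (isOpen_Vz z s).inter (isClosed_good_inter t δ' _ (isClosed_csq z (3 * s))).isOpen_compl
  refine (collLaw_exists_le R (δ i) hopen).trans (le_trans ?_ hε')
  apply ENNReal.ofReal_le_ofReal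
  refine (Pr_mono w_ok ?_).trans (H3 (δ i) (hδ i) hi.1)
  rintro F _ ⟨v, hv1, hv2⟩
  refine ⟨v, hv1, ?_⟩
  rintro ⟨r, T, hr, hrs, hT, hsub⟩
  exact hv2 (good_of_SG ht0.le hα hE hr hT (hδ i) hi.2.le hs0 hrs hsub)

theorem coll_lower_sq {z : ℂ} {s : ℝ} (hs : 0 < s)
    (hD : csq z (3 * s) ⊆ R.D) : ∀ᵐ 𝒞 : NonemptyCompacts (NonemptyCompacts ℂ)
    ∂(μ : Measure (NonemptyCompacts (NonemptyCompacts ℂ))),
    ∀ K ∈ 𝒞, K ∈ Vz z s → ENNReal.ofReal (91 / 48) ≤ dimH ((K : Set ℂ) ∩ csq z (3 * s)) := by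
  have h1 : ∀ m : ℕ, ∀ᵐ 𝒞 : NonemptyCompacts (NonemptyCompacts ℂ)
      ∂(μ : Measure (NonemptyCompacts (NonemptyCompacts ℂ))), ∀ K ∈ 𝒞, K ∈ Vz z s →
      ENNReal.ofReal (91 / 48 - 1 / 2 * (1 / ((m : ℝ) + 1))) ≤
        dimH ((K : Set ℂ) ∩ csq z (3 * s)) := by
    intro m
    have h2 : (0 : ℝ) < 1 / ((m : ℝ) + 1) := by positivity
    have h3 : 1 / ((m : ℝ) + 1) ≤ 1 := by
      rw [div_le_one (by positivity)]
      linarith [(Nat.cast_nonneg m : (0 : ℝ) ≤ m)]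
    exact coll_lower_t hAr R hδ hlim hμ (by linarith) (by linarith) hs hD
  filter_upwards [ae_all_iff.mpr h1] with 𝒞 h𝒞 K hK hKV
  have h2 : Tendsto (fun m : ℕ => ENNReal.ofReal (91 / 48 - 1 / 2 * (1 / ((m : ℝ) + 1)))) atTop
      (𝓝 (ENNReal.ofReal (91 / 48))) := by
    apply ENNReal.tendsto_ofReal
    have := ((tendsto_one_div_add_atTop_nhds_zero_nat (𝕜 := ℝ)).const_mul (1 / 2)).const_sub
      (91 / 48)
    simpa using this
  exact le_of_tendsto' h2 (fun m => h𝒞 m K hK hKV)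

end

include hAr

/-- Interior points. -/
theorem coll_lower_int : ∀ᵐ 𝒞 : NonemptyCompacts (NonemptyCompacts ℂ)
    ∂(μ : Measure (NonemptyCompacts (NonemptyCompacts ℂ))),
    ∀ K ∈ 𝒞, (K : Set ℂ).Nontrivial → ∀ w ∈ K, w ∈ R.D → ∀ ε : ℝ, 0 < ε →
      ENNReal.ofReal (91 / 48) ≤ dimH ((K : Set ℂ) ∩ ball w ε) := by
  have key : ∀ (a b : ℚ) (n : ℕ), ∀ᵐ 𝒞 : NonemptyCompacts (NonemptyCompacts ℂ)
      ∂(μ : Measure (NonemptyCompacts (NonemptyCompacts ℂ))),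
      csq (⟨a, b⟩ : ℂ) (3 * (1 / ((n : ℝ) + 1))) ⊆ R.D → ∀ K ∈ 𝒞,
      K ∈ Vz (⟨a, b⟩ : ℂ) (1 / ((n : ℝ) + 1)) →
      ENNReal.ofReal (91 / 48) ≤ dimH ((K : Set ℂ) ∩ csq (⟨a, b⟩ : ℂ) (3 * (1 / ((n : ℝ) + 1)))) := by
    intro a b n
    by_cases h : csq (⟨a, b⟩ : ℂ) (3 * (1 / ((n : ℝ) + 1))) ⊆ R.D
    · filter_upwards [coll_lower_sq hAr R hδ hlim hμ (by positivity) h] with 𝒞 h𝒞 _
      exact h𝒞
    · exact Eventually.of_forall fun _ h' => absurd h' h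
  filter_upwards [ae_all_iff.mpr (fun a => ae_all_iff.mpr (fun b => ae_all_iff.mpr
    (fun n => key a b n)))] with 𝒞 h𝒞 K hK hnt w hw hwD ε hε
  obtain ⟨d1, d2, d3, d4⟩ := hwD
  obtain ⟨a, b, n, hn, hV, hab1, hab2⟩ := exists_small (K := K) hnt hw
    (show (0 : ℝ) < min (ε / 8) (min (min (w.re + R.A) (R.B - w.re)) (min w.im (R.H - w.im)) / 4)
      from lt_min (by positivity) (div_pos (lt_min (lt_min (by linarith) (by linarith))
        (lt_min d3 (by linarith))) (by norm_num)))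
  rw [lt_min_iff] at hn
  obtain ⟨hn1, hn2⟩ := hn
  have m1 : min (min (w.re + R.A) (R.B - w.re)) (min w.im (R.H - w.im)) ≤ w.re + R.A :=
    (min_le_left _ _).trans (min_le_left _ _)
  have m2 : min (min (w.re + R.A) (R.B - w.re)) (min w.im (R.H - w.im)) ≤ R.B - w.re :=
    (min_le_left _ _).trans (min_le_right _ _)
  have m3 : min (min (w.re + R.A) (R.B - w.re)) (min w.im (R.H - w.im)) ≤ w.im :=
    (min_le_right _ _).trans (min_le_left _ _)
  have m4 : min (min (w.re + R.A) (R.B - w.re)) (min w.im (R.H - w.im)) ≤ R.H - w.im :=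
    (min_le_right _ _).trans (min_le_right _ _)
  rw [abs_lt] at hab1 hab2
  simp only at hab1 hab2
  have hsub : csq (⟨a, b⟩ : ℂ) (3 * (1 / ((n : ℝ) + 1))) ⊆ R.D := by
    rintro y ⟨h1, h2⟩
    rw [abs_le] at h1 h2
    simp only at h1 h2
    exact ⟨by linarith, by linarith, by linarith, by linarith⟩
  refine (h𝒞 a b n hsub K hK hV).trans (dimH_mono (Set.inter_subset_inter_right _
    (csq_sub_ball ?_)))
  have h1 : |(a : ℝ) - w.re| ≤ 1 / ((n : ℝ) + 1) := by rw [abs_le]; constructor <;> linarith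
  have h2 : |(b : ℝ) - w.im| ≤ 1 / ((n : ℝ) + 1) := by rw [abs_le]; constructor <;> linarith
  simp only
  linarith

omit hAr in
/-- Near the boundary, the clusters have points in the domain. -/
theorem coll_bdry : ∀ᵐ 𝒞 : NonemptyCompacts (NonemptyCompacts ℂ)
    ∂(μ : Measure (NonemptyCompacts (NonemptyCompacts ℂ))),
    ∀ K ∈ 𝒞, (K : Set ℂ).Nontrivial → ∀ w ∈ K, ∀ ε : ℝ, 0 < ε →
      ((K : Set ℂ) ∩ ball w ε ∩ R.D).Nonempty := by
  have key : ∀ (a b : ℚ) (n : ℕ), ∀ᵐ 𝒞 : NonemptyCompacts (NonemptyCompacts ℂ)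
      ∂(μ : Measure (NonemptyCompacts (NonemptyCompacts ℂ))),
      32 * (1 / ((n : ℝ) + 1)) ≤ min (R.A + R.B) R.H → ∀ K ∈ 𝒞,
      ∃ η : ℝ, 0 < η ∧ K ∉ Uz R (⟨a, b⟩ : ℂ) (1 / ((n : ℝ) + 1)) η := by
    intro a b n
    by_cases h : 32 * (1 / ((n : ℝ) + 1)) ≤ min (R.A + R.B) R.H
    · have h0 : (μ : Measure (NonemptyCompacts (NonemptyCompacts ℂ)))
          {𝒞 | ∃ K ∈ 𝒞, ∀ η : ℝ, 0 < η → K ∈ Uz R (⟨a, b⟩ : ℂ) (1 / ((n : ℝ) + 1)) η} = 0 := by
        rw [← nonpos_iff_eq_zero]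
        apply ENNReal.le_of_forall_pos_le_add
        intro ε hε _
        rw [zero_add]
        obtain ⟨η, hη, δ0, hδ0, H⟩ := disc_bdry R (⟨a, b⟩ : ℂ) (s := 1 / ((n : ℝ) + 1))
          (by positivity) h (ε := (ε : ℝ)) (by exact_mod_cast hε)
        have h1 := coll_lim_le R hμ (isOpen_Uz R (⟨a, b⟩ : ℂ) (1 / ((n : ℝ) + 1)) η)
          (q := (ε : ℝ)) (Eventually.frequently (by
            filter_upwards [hlim.eventually_lt_const hδ0] with i hi
            exact H (δ i) (hδ i) hi))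
        rw [ENNReal.ofReal_coe_nnreal] at h1
        refine le_trans (measure_mono ?_) h1
        rintro 𝒞 ⟨K, hK1, hK2⟩
        exact ⟨K, hK1, hK2 η hη⟩
      have h1 : ∀ᵐ 𝒞 : NonemptyCompacts (NonemptyCompacts ℂ)
          ∂(μ : Measure (NonemptyCompacts (NonemptyCompacts ℂ))),
          ¬ ∃ K ∈ 𝒞, ∀ η : ℝ, 0 < η → K ∈ Uz R (⟨a, b⟩ : ℂ) (1 / ((n : ℝ) + 1)) η := by
        rw [ae_iff]
        simpa only [not_not] using h0
      filter_upwards [h1] with 𝒞 h𝒞 _ K hK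
      by_contra hcon
      push Not at hcon
      exact h𝒞 ⟨K, hK, hcon⟩
    · exact Eventually.of_forall fun _ h' => absurd h' h
  filter_upwards [coll_sub R hδ hlim hμ, ae_all_iff.mpr (fun a => ae_all_iff.mpr (fun b =>
    ae_all_iff.mpr (fun n => key a b n)))] with 𝒞 h1 h2 K hK hnt w hw ε hε
  by_contra hcon
  rw [Set.not_nonempty_iff_eq_empty] at hcon
  have hA := R.hA
  have hB := R.hB
  have hH := R.hH
  obtain ⟨a, b, n, hn, hV, hab1, hab2⟩ := exists_small (K := K) hnt hw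
    (show (0 : ℝ) < min (ε / 8) (min (R.A + R.B) R.H / 32)
      from lt_min (by positivity) (div_pos (lt_min (by positivity) hH) (by norm_num)))
  rw [lt_min_iff] at hn
  obtain ⟨hn1, hn2⟩ := hn
  obtain ⟨η, hη, hU⟩ := h2 a b n (by linarith) K hK
  apply hU
  refine ⟨hV.1, hV.2, ?_⟩
  rintro x hx ⟨hx1, hx2⟩
  rw [abs_lt] at hab1 hab2
  simp only at hab1 hab2
  have hball : x ∈ ball w ε := by
    refine (csq_sub_ball (z := (⟨a, b⟩ : ℂ)) (s := 3 * (1 / ((n : ℝ) + 1))) ?_) hx1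
    have h1 : |(a : ℝ) - w.re| ≤ 1 / ((n : ℝ) + 1) := by rw [abs_le]; constructor <;> linarith
    have h2 : |(b : ℝ) - w.im| ≤ 1 / ((n : ℝ) + 1) := by rw [abs_le]; constructor <;> linarith
    simp only
    linarith
  have hxD : x ∈ R.D := by
    obtain ⟨⟨g1, g2⟩, g3, g4⟩ := hx2
    exact ⟨by linarith, by linarith, by linarith, by linarith⟩
  have : x ∈ (K : Set ℂ) ∩ ball w ε ∩ R.D := ⟨⟨hx, hball⟩, hxD⟩
  rw [hcon] at this
  exact this

/-- **Near all points of all clusters the dimension is at least `91 / 48`.** -/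
theorem coll_lower : ∀ᵐ 𝒞 : NonemptyCompacts (NonemptyCompacts ℂ)
    ∂(μ : Measure (NonemptyCompacts (NonemptyCompacts ℂ))),
    ∀ K ∈ 𝒞, (K : Set ℂ).Nontrivial → ∀ w ∈ K, ∀ ε : ℝ, 0 < ε →
      ENNReal.ofReal (91 / 48) ≤ dimH ((K : Set ℂ) ∩ ball w ε) := by
  filter_upwards [coll_lower_int hAr R hδ hlim hμ, coll_bdry R hδ hlim hμ] with 𝒞 h1 h2 K hK hnt
    w hw ε hε
  obtain ⟨x, ⟨hx1, hx2⟩, hx3⟩ := h2 K hK hnt w hw ε hε
  obtain ⟨ε', hε', hsub⟩ := Metric.isOpen_iff.mp isOpen_ball x hx2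
  exact (h1 K hK hnt x hx1 hx3 ε' hε').trans (dimH_mono (Set.inter_subset_inter_right _ hsub))

end

end Pool.Agent.H389R2.CL
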