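import Pool.Agent.H389R2.CD.Fin

/-!
# The collection of all clusters of a rectangle with Dobrushin boundary conditions
-/

set_option autoImplicit false
set_option maxHeartbeats 1000000
set_option linter.unusedSimpArgs false

namespace Pool.Agent.H389R2.CL

open H974 H934E Pool.Agent.H160R2.CV MeasureTheory TopologicalSpace Filter Topology Metric Set
open Pool.Agent.H389R2.Dim Pool.Agent.H389R2.CD
open scoped ENNReal NNReal

/-- The vertices of the open cluster of `v`, when `F` is the set of open edges of the domain. -/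
def cluAt (R : Rect) (δ : ℝ) (F : Finset Edg) (v : Vtx) : Set Vtx :=
  {u | Reach (↑F ∪ R.wired δ) v u}

/-- The open cluster of `v` as a subset of the plane: its vertices and its edges. -/
noncomputable def csetAt (R : Rect) (δ : ℝ) (F : Finset Edg) (v : Vtx) : Set ℂ :=
  (pt δ '' cluAt R δ F v) ∪
    ⋃ e ∈ {e : Edg | e ∈ (↑F ∪ R.wired δ : Set Edg) ∧ src e ∈ cluAt R δ F v},
      segment ℝ (pt δ (src e)) (pt δ (tgt e))

theorem cluAt_finite (R : Rect) (δ : ℝ) (F : Finset Edg) (v : Vtx) : (cluAt R δ F v).Finite :=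
  Rect.reach_finite (F.finite_toSet.union (R.wired_finite δ)) v

theorem csetAt_compact (R : Rect) (δ : ℝ) (F : Finset Edg) (v : Vtx) :
    IsCompact (csetAt R δ F v) := by
  apply IsCompact.union
  · exact ((cluAt_finite R δ F v).image _).isCompact
  · apply Set.Finite.isCompact_biUnion
    · exact (F.finite_toSet.union (R.wired_finite δ)).subset (fun e he => he.1)
    · intro e _
      rw [segment_eq_image]
      exact isCompact_Icc.image (by fun_prop)

theorem csetAt_nonempty (R : Rect) (δ : ℝ) (F : Finset Edg) (v : Vtx) :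
    (csetAt R δ F v).Nonempty := ⟨pt δ v, Or.inl ⟨v, Reach.refl _ _, rfl⟩⟩

/-- The open cluster of `v` as a nonempty compact set. -/
noncomputable def clAt (R : Rect) (δ : ℝ) (F : Finset Edg) (v : Vtx) : NonemptyCompacts ℂ :=
  ⟨⟨csetAt R δ F v, csetAt_compact R δ F v⟩, csetAt_nonempty R δ F v⟩

/-- The collection of the open clusters of all vertices of the domain (and of the wired
cluster). -/
noncomputable def coll (R : Rect) (δ : ℝ) (F : Finset Edg) :
    NonemptyCompacts (NonemptyCompacts ℂ) :=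
  ⟨⟨clAt R δ F '' (insert (0, 0) (↑(R.verts δ) : Set Vtx)),
    (((R.verts δ).finite_toSet.insert _).image _).isCompact⟩,
    ⟨clAt R δ F (0, 0), _, Set.mem_insert _ _, rfl⟩⟩

noncomputable instance instMNCC : MeasurableSpace (NonemptyCompacts (NonemptyCompacts ℂ)) :=
  borel _
instance instBNCC : BorelSpace (NonemptyCompacts (NonemptyCompacts ℂ)) := ⟨rfl⟩

/-- The law of `K F`, when all sets `F` of open edges of `S` are equally likely. -/
noncomputable def lawC (S : Finset Edg) (K : Finset Edg → NonemptyCompacts (NonemptyCompacts ℂ)) :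
    Measure (NonemptyCompacts (NonemptyCompacts ℂ)) :=
  ∑ F ∈ S.powerset, ENNReal.ofReal ((1 / 2) ^ S.card) • Measure.dirac (K F)

theorem lawC_apply (S : Finset Edg) (K : Finset Edg → NonemptyCompacts (NonemptyCompacts ℂ))
    {G : Set (NonemptyCompacts (NonemptyCompacts ℂ))} (hG : MeasurableSet G) :
    lawC S K G = ENNReal.ofReal (Pr P S (fun F => K F ∈ G)) := by
  classical
  unfold lawC
  rw [Measure.finsetSum_apply]
  unfold Pr P
  rw [H973.Ex_half, ENNReal.ofReal_mul (by positivity), ENNReal.ofReal_sum_of_nonneg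
    (fun _ _ => ind_nonneg _), Finset.mul_sum]
  apply Finset.sum_congr rfl
  intro F _
  rw [Measure.smul_apply, Measure.dirac_apply' _ hG, smul_eq_mul]
  congr 1
  by_cases h : K F ∈ G
  · rw [ind_of h, Set.indicator_of_mem h]; simp
  · rw [ind_not_of h, Set.indicator_of_notMem h]; simp

theorem lawC_univ (S : Finset Edg) (K : Finset Edg → NonemptyCompacts (NonemptyCompacts ℂ)) :
    lawC S K univ = 1 := by
  rw [lawC_apply S K MeasurableSet.univ]
  have : Pr P S (fun F => K F ∈ (univ : Set (NonemptyCompacts (NonemptyCompacts ℂ)))) = 1 :=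
    Pr_true _ (fun F _ => Set.mem_univ _)
  rw [this]
  simp

/-- The law of the collection of all clusters at mesh `δ`. -/
noncomputable def collLaw (R : Rect) (δ : ℝ) :
    ProbabilityMeasure (NonemptyCompacts (NonemptyCompacts ℂ)) :=
  ⟨lawC (R.edges δ) (coll R δ), ⟨lawC_univ _ _⟩⟩

theorem collLaw_apply (R : Rect) (δ : ℝ) {G : Set (NonemptyCompacts (NonemptyCompacts ℂ))}
    (hG : MeasurableSet G) :
    (collLaw R δ : Measure (NonemptyCompacts (NonemptyCompacts ℂ))) G =
      ENNReal.ofReal (Pr P (R.edges δ) (fun F => coll R δ F ∈ G)) := lawC_apply _ _ hG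

theorem mem_coll {R : Rect} {δ : ℝ} {F : Finset Edg} {K : NonemptyCompacts ℂ}
    (h : K ∈ coll R δ F) : ∃ v : Vtx, K = clAt R δ F v := by
  obtain ⟨v, _, rfl⟩ := (h : K ∈ clAt R δ F '' (insert (0, 0) (↑(R.verts δ) : Set Vtx)))
  exact ⟨v, rfl⟩

/-- Probability of an event on the collection which concerns a single cluster. -/
theorem collLaw_exists_le (R : Rect) (δ : ℝ) {G : Set (NonemptyCompacts ℂ)} (hG : IsOpen G) :
    (collLaw R δ : Measure (NonemptyCompacts (NonemptyCompacts ℂ)))
      {𝒞 | ((𝒞 : Set (NonemptyCompacts ℂ)) ∩ G).Nonempty} ≤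
      ENNReal.ofReal (Pr P (R.edges δ) (fun F => ∃ v : Vtx, clAt R δ F v ∈ G)) := by
  rw [collLaw_apply R δ (NonemptyCompacts.isOpen_inter_nonempty_of_isOpen hG).measurableSet]
  apply ENNReal.ofReal_le_ofReal
  apply Pr_mono w_ok
  rintro F _ ⟨K, hK1, hK2⟩
  obtain ⟨v, rfl⟩ := mem_coll hK1
  exact ⟨v, hK2⟩

/-- Every point of the cluster is close to a vertex of the cluster. -/
theorem csetAt_near (R : Rect) {δ : ℝ} (hδ : 0 ≤ δ) {F : Finset Edg} {v0 : Vtx} {z : ℂ}
    (hz : z ∈ csetAt R δ F v0) :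
    ∃ v ∈ cluAt R δ F v0, |z.re - (pt δ v).re| ≤ δ ∧ |z.im - (pt δ v).im| ≤ δ := by
  rcases hz with ⟨v, hv, rfl⟩ | hz
  · exact ⟨v, hv, by simp [hδ], by simp [hδ]⟩
  · rw [Set.mem_iUnion₂] at hz
    obtain ⟨e, ⟨_, he⟩, h2⟩ := hz
    refine ⟨src e, he, ?_⟩
    rw [segment_eq_image] at h2
    obtain ⟨θ, ⟨h3, h4⟩, rfl⟩ := h2
    obtain ⟨h5, h6⟩ := pt_edge hδ e
    simp only [Complex.add_re, Complex.add_im, Complex.real_smul, Complex.mul_re, Complex.mul_im,
      Complex.sub_re, Complex.sub_im, Complex.one_re, Complex.one_im, Complex.ofReal_re,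
      Complex.ofReal_im, zero_mul, sub_zero, add_zero, zero_add]
    constructor
    · have e1 : (1 - θ) * (pt δ (src e)).re + θ * (pt δ (tgt e)).re - (pt δ (src e)).re =
        θ * ((pt δ (tgt e)).re - (pt δ (src e)).re) := by ring
      rw [e1, abs_mul, abs_of_nonneg h3]
      calc θ * |(pt δ (tgt e)).re - (pt δ (src e)).re| ≤ 1 * δ :=
            mul_le_mul h4 h5 (abs_nonneg _) (by norm_num)
        _ = δ := one_mul _
    · have e1 : (1 - θ) * (pt δ (src e)).im + θ * (pt δ (tgt e)).im - (pt δ (src e)).im =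
        θ * ((pt δ (tgt e)).im - (pt δ (src e)).im) := by ring
      rw [e1, abs_mul, abs_of_nonneg h3]
      calc θ * |(pt δ (tgt e)).im - (pt δ (src e)).im| ≤ 1 * δ :=
            mul_le_mul h4 h6 (abs_nonneg _) (by norm_num)
        _ = δ := one_mul _

end Pool.Agent.H389R2.CL
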