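import Pool.Agent.H389R2.CL.Base
import Pool.Agent.H389R2.CL.DiscU

/-!
# All clusters: upper bound for the dimension
-/

set_option autoImplicit false
set_option maxHeartbeats 1000000
set_option linter.unusedSimpArgs false

namespace Pool.Agent.H389R2.CL

open H974 H934E Pool.Agent.H160R2.CV MeasureTheory TopologicalSpace Filter Topology Metric Set
open Pool.Agent.H389R2.Dim Pool.Agent.H389R2.CD
open scoped ENNReal NNReal

/-- The points at distance at least `ρ` from the sides. -/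
def Am (R : Rect) (ρ : ℝ) : Set ℂ :=
  {z | (-R.A + ρ ≤ z.re ∧ z.re ≤ R.B - ρ) ∧ (ρ ≤ z.im ∧ z.im ≤ R.H - ρ)}

/-- The sets which meet both squares. -/
def V2 (a b : ℂ) (r : ℝ) : Set (NonemptyCompacts ℂ) :=
  {K | ((K : Set ℂ) ∩ sq a r).Nonempty ∧ ((K : Set ℂ) ∩ sq b r).Nonempty}

theorem isOpen_V2 (a b : ℂ) (r : ℝ) : IsOpen (V2 a b r) :=
  (NonemptyCompacts.isOpen_inter_nonempty_of_isOpen (isOpen_sq a r)).inter
    (NonemptyCompacts.isOpen_inter_nonempty_of_isOpen (isOpen_sq b r))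

theorem V2_out {a b : ℂ} {r : ℝ} (hab : 6 * r ≤ max |a.re - b.re| |a.im - b.im|) (hr : 0 < r)
    {K : NonemptyCompacts ℂ} (hK : K ∈ V2 a b r) (z : ℂ) {ρ : ℝ} (hρ : ρ ≤ r) :
    ((K : Set ℂ) ∩ (csq z ρ)ᶜ).Nonempty := by
  obtain ⟨⟨x, hx, hx1, hx2⟩, y, hy, hy1, hy2⟩ := hK
  by_contra hcon
  rw [Set.not_nonempty_iff_eq_empty] at hcon
  have hx3 : x ∈ csq z ρ := by
    by_contra h
    have : x ∈ (K : Set ℂ) ∩ (csq z ρ)ᶜ := ⟨hx, h⟩
    rw [hcon] at this
    exact this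
  have hy3 : y ∈ csq z ρ := by
    by_contra h
    have : y ∈ (K : Set ℂ) ∩ (csq z ρ)ᶜ := ⟨hy, h⟩
    rw [hcon] at this
    exact this
  obtain ⟨u1, u2⟩ := hx3
  obtain ⟨v1, v2⟩ := hy3
  rw [abs_le] at u1 u2 v1 v2
  rw [abs_lt] at hx1 hx2 hy1 hy2
  rcases le_max_iff.mp hab with h | h
  · have : |a.re - b.re| < 6 * r := by
      rw [abs_lt]
      constructor <;> linarith
    linarith
  · have : |a.im - b.im| < 6 * r := by
      rw [abs_lt]
      constructor <;> linarith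
    linarith

section

variable (hAr : ArS) (R : Rect) {δ : ℕ → ℝ} (hδ : ∀ i, 0 < δ i) (hlim : Tendsto δ atTop (𝓝 0))
  {μ : ProbabilityMeasure (NonemptyCompacts (NonemptyCompacts ℂ))}
  (hμ : Tendsto (fun i => collLaw R (δ i)) atTop (𝓝 μ))

include hAr hδ hlim hμ

theorem coll_upper_aux (a b : ℂ) {r ρ : ℝ} (hr : 0 < r) (hρ : 0 < ρ)
    (hab : 6 * r ≤ max |a.re - b.re| |a.im - b.im|) :
    ∀ᵐ 𝒞 : NonemptyCompacts (NonemptyCompacts ℂ)
      ∂(μ : Measure (NonemptyCompacts (NonemptyCompacts ℂ))),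
      dimH (un (V2 a b r) 𝒞 ∩ Am R ρ) ≤ ENNReal.ofReal (91 / 48) := by
  obtain ⟨C, hC, hH⟩ := disc_upper hAr
  have hA0 := R.hA
  have hB0 := R.hB
  have hH0 := R.hH
  set ρ' : ℝ := min (ρ / 2) r with hρ'
  have hρ'0 : 0 < ρ' := lt_min (by positivity) hr
  have hρ'1 : ρ' ≤ ρ / 2 := min_le_left _ _
  have hρ'2 : ρ' ≤ r := min_le_right _ _
  refine upper_sq_gen hμ (W := un (V2 a b r)) (fun G hG => isOpen_un (isOpen_V2 a b r) hG)
    (A := Am R ρ) (M := R.A + R.B + R.H) (by positivity) ?_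
    (C := C * (1 / ρ') ^ ((5 : ℝ) / 48)) (s0 := ρ' / 16) (by positivity) (by positivity) ?_
  · rintro z ⟨⟨h1, h2⟩, h3, h4⟩
    rw [abs_le, abs_le]
    refine ⟨⟨by linarith, by linarith⟩, ⟨by linarith, by linarith⟩⟩
  · rintro z s hs hs0 ⟨w, ⟨hw1, hw2⟩, ⟨hw3, hw4⟩, hw5, hw6⟩
    apply Eventually.frequently
    filter_upwards [hlim.eventually_lt_const (show (0 : ℝ) < s / 16 by positivity)] with i hi
    have hset : {𝒞 : NonemptyCompacts (NonemptyCompacts ℂ) |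
        (un (V2 a b r) 𝒞 ∩ sq z s).Nonempty} =
        {𝒞 : NonemptyCompacts (NonemptyCompacts ℂ) | ((𝒞 : Set (NonemptyCompacts ℂ)) ∩
          (V2 a b r ∩ {K | ((K : Set ℂ) ∩ sq z s).Nonempty})).Nonempty} := by
      ext 𝒞
      constructor
      · rintro ⟨x, ⟨K, h1, h2, h3⟩, h4⟩
        exact ⟨K, h1, h2, x, h3, h4⟩
      · rintro ⟨K, h1, h2, x, h3, h4⟩
        exact ⟨x, ⟨K, h1, h2, h3⟩, h4⟩
    rw [hset]
    refine (collLaw_exists_le R (δ i) ((isOpen_V2 a b r).inter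
      (NonemptyCompacts.isOpen_inter_nonempty_of_isOpen (isOpen_sq z s)))).trans ?_
    apply ENNReal.ofReal_le_ofReal
    rw [abs_lt] at hw1 hw2
    have hD : csq z ρ' ⊆ R.D := by
      rintro y ⟨hy1, hy2⟩
      rw [abs_le] at hy1 hy2
      exact ⟨by linarith, by linarith, by linarith, by linarith⟩
    have h5 := hH R z ρ' s (δ i) hs (by linarith) hD (hδ i) (by linarith)
    refine (Pr_mono w_ok ?_).trans (h5.trans (le_of_eq ?_))
    · rintro F _ ⟨v, hv1, hv2⟩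
      exact ⟨v, hv2, V2_out hab hr hv1 z hρ'2⟩
    · rw [mul_assoc, ← Real.mul_rpow (by positivity) hs.le]
      congr 2
      field_simp

/-- All clusters have dimension at most `91 / 48`. -/
theorem coll_upper : ∀ᵐ 𝒞 : NonemptyCompacts (NonemptyCompacts ℂ)
    ∂(μ : Measure (NonemptyCompacts (NonemptyCompacts ℂ))),
    ∀ K ∈ 𝒞, dimH (K : Set ℂ) ≤ ENNReal.ofReal (91 / 48) := by
  have key : ∀ (a1 a2 b1 b2 : ℚ) (n m : ℕ), ∀ᵐ 𝒞 : NonemptyCompacts (NonemptyCompacts ℂ)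
      ∂(μ : Measure (NonemptyCompacts (NonemptyCompacts ℂ))),
      6 * (1 / ((n : ℝ) + 1)) ≤ max |(a1 : ℝ) - b1| |(a2 : ℝ) - b2| →
      dimH (un (V2 ⟨a1, a2⟩ ⟨b1, b2⟩ (1 / ((n : ℝ) + 1))) 𝒞 ∩ Am R (1 / ((m : ℝ) + 1))) ≤
        ENNReal.ofReal (91 / 48) := by
    intro a1 a2 b1 b2 n m
    by_cases h : 6 * (1 / ((n : ℝ) + 1)) ≤ max |(a1 : ℝ) - b1| |(a2 : ℝ) - b2|
    · filter_upwards [coll_upper_aux hAr R hδ hlim hμ ⟨a1, a2⟩ ⟨b1, b2⟩
        (r := 1 / ((n : ℝ) + 1)) (ρ := 1 / ((m : ℝ) + 1)) (by positivity) (by positivity) h]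
        with 𝒞 h𝒞 _
      exact h𝒞
    · exact Eventually.of_forall fun _ h' => absurd h' h
  filter_upwards [coll_sub R hδ hlim hμ, ae_all_iff.mpr (fun a1 => ae_all_iff.mpr (fun a2 =>
    ae_all_iff.mpr (fun b1 => ae_all_iff.mpr (fun b2 => ae_all_iff.mpr (fun n =>
    ae_all_iff.mpr (fun m => key a1 a2 b1 b2 n m))))))] with 𝒞 h1 h2 K hK
  have h1le : (1 : ℝ≥0∞) ≤ ENNReal.ofReal (91 / 48) := by
    rw [← ENNReal.ofReal_one]
    exact ENNReal.ofReal_le_ofReal (by norm_num)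
  by_cases hnt : (K : Set ℂ).Subsingleton
  · rw [hnt.dimH_zero]; exact bot_le
  rw [Set.not_subsingleton_iff] at hnt
  obtain ⟨x, hx, y, hy, hxy⟩ := hnt
  -- a scale
  have hpos : 0 < max |x.re - y.re| |x.im - y.im| := by
    rw [lt_max_iff, abs_pos, abs_pos]
    by_contra hcon
    push Not at hcon
    apply hxy
    apply Complex.ext
    · linarith [hcon.1]
    · linarith [hcon.2]
  set d : ℝ := max |x.re - y.re| |x.im - y.im| with hd
  obtain ⟨n, hn⟩ := exists_nat_one_div_lt (show (0 : ℝ) < d / 8 by positivity)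
  have hn0 : (0 : ℝ) < 1 / ((n : ℝ) + 1) := by positivity
  obtain ⟨a1, ha1, ha1'⟩ := exists_rat_btwn (show x.re < x.re + 1 / ((n : ℝ) + 1) by linarith)
  obtain ⟨a2, ha2, ha2'⟩ := exists_rat_btwn (show x.im < x.im + 1 / ((n : ℝ) + 1) by linarith)
  obtain ⟨b1, hb1, hb1'⟩ := exists_rat_btwn (show y.re < y.re + 1 / ((n : ℝ) + 1) by linarith)
  obtain ⟨b2, hb2, hb2'⟩ := exists_rat_btwn (show y.im < y.im + 1 / ((n : ℝ) + 1) by linarith)
  have hV : K ∈ V2 (⟨a1, a2⟩ : ℂ) ⟨b1, b2⟩ (1 / ((n : ℝ) + 1)) := by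
    refine ⟨⟨x, hx, ?_, ?_⟩, ⟨y, hy, ?_, ?_⟩⟩
    · simp only; rw [abs_lt]; constructor <;> linarith
    · simp only; rw [abs_lt]; constructor <;> linarith
    · simp only; rw [abs_lt]; constructor <;> linarith
    · simp only; rw [abs_lt]; constructor <;> linarith
  have hsep : 6 * (1 / ((n : ℝ) + 1)) ≤ max |(a1 : ℝ) - b1| |(a2 : ℝ) - b2| := by
    rcases le_total |x.im - y.im| |x.re - y.re| with h | h
    · have e : d = |x.re - y.re| := max_eq_left h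
      refine le_trans ?_ (le_max_left _ _)
      have : |x.re - y.re| ≤ |(a1 : ℝ) - b1| + 1 / ((n : ℝ) + 1) := by
        rw [abs_le]
        constructor
        · linarith [neg_abs_le ((a1 : ℝ) - b1)]
        · linarith [le_abs_self ((a1 : ℝ) - b1)]
      linarith
    · have e : d = |x.im - y.im| := max_eq_right h
      refine le_trans ?_ (le_max_right _ _)
      have : |x.im - y.im| ≤ |(a2 : ℝ) - b2| + 1 / ((n : ℝ) + 1) := by
        rw [abs_le]
        constructor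
        · linarith [neg_abs_le ((a2 : ℝ) - b2)]
        · linarith [le_abs_self ((a2 : ℝ) - b2)]
      linarith
  have hK2 : ∀ m : ℕ, dimH ((K : Set ℂ) ∩ Am R (1 / ((m : ℝ) + 1))) ≤ ENNReal.ofReal (91 / 48) := by
    intro m
    refine (dimH_mono ?_).trans (h2 a1 a2 b1 b2 n m hsep)
    rintro z ⟨hz1, hz2⟩
    exact ⟨⟨K, hK, hV, hz1⟩, hz2⟩
  have hsub : (K : Set ℂ) ⊆ (⋃ m : ℕ, (K : Set ℂ) ∩ Am R (1 / ((m : ℝ) + 1))) ∪
      (({z : ℂ | z.re = -R.A} ∪ {z : ℂ | z.re = R.B}) ∪ ({z : ℂ | z.im = 0} ∪ {z : ℂ | z.im = R.H})) := by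
    intro z hz
    obtain ⟨⟨h1, h2⟩, h3, h4⟩ := h1 K hK hz
    rcases eq_or_lt_of_le h1 with e1 | e1
    · right; left; left; exact e1.symm
    rcases eq_or_lt_of_le h2 with e2 | e2
    · right; left; right; exact e2
    rcases eq_or_lt_of_le h3 with e3 | e3
    · right; right; left; exact e3.symm
    rcases eq_or_lt_of_le h4 with e4 | e4
    · right; right; right; exact e4
    left
    rw [Set.mem_iUnion]
    obtain ⟨m, hm⟩ := exists_nat_one_div_lt (lt_min (lt_min (sub_pos.mpr e1) (sub_pos.mpr e2))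
      (lt_min e3 (sub_pos.mpr e4)))
    simp only [lt_min_iff] at hm
    obtain ⟨⟨m1, m2⟩, m3, m4⟩ := hm
    exact ⟨m, hz, ⟨by linarith, by linarith⟩, by linarith, by linarith⟩
  refine (dimH_mono hsub).trans ?_
  rw [dimH_union, dimH_union, dimH_union, dimH_union, dimH_iUnion]
  refine max_le (iSup_le hK2) (max_le (max_le ?_ ?_) (max_le ?_ ?_))
  · exact (dimH_vline _).trans h1le
  · exact (dimH_vline _).trans h1le
  · exact (dimH_hline _).trans h1le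
  · exact (dimH_hline _).trans h1le

end

end Pool.Agent.H389R2.CL
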